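import Pool.Agent.X188.Osc.Lower3

set_option autoImplicit false
set_option linter.unusedSectionVars false

/-!
# The best constants
-/

open MeasureTheory Set Filter

namespace Pool.Agent.X188.Osc

variable {d : ℕ}

/-- `|f| ≤ B` almost everywhere from some time on. -/
def EssBddBy (f : ℝ → EuclideanSpace ℝ (Fin d)) (B : ℝ) : Prop :=
  0 ≤ B ∧ ∃ T : ℝ, ∀ᵐ t, T < t → ‖f t‖ ≤ B

/-- The essential upper limit of `|f(t)|` as `t → ∞`. -/
noncomputable def essLimsup (f : ℝ → EuclideanSpace ℝ (Fin d)) : ℝ := sInf {B | EssBddBy f B}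

/-- `K ≥ 0` is admissible for `(A, c)`: `limsup |u'| ≤ K ess limsup |f|` for every locally
integrable `f` with finite essential upper limit and every solution `u` (with derivative `v`). -/
def IsAdmissible (A : Matrix (Fin d) (Fin d) ℝ) (c K : ℝ) : Prop :=
  0 ≤ K ∧ ∀ f u v : ℝ → EuclideanSpace ℝ (Fin d), LocallyIntegrableOn f (Set.Ici 0) →
    (∃ B, EssBddBy f B) → IsSolution A c f u v →
    ∀ ε : ℝ, 0 < ε → ∀ᶠ t in atTop, ‖v t‖ ≤ K * essLimsup f + ε

/-- The best constant `K(A, c)`. -/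
noncomputable def bestConst (A : Matrix (Fin d) (Fin d) ℝ) (c : ℝ) : ℝ :=
  sInf {K | IsAdmissible A c K}

theorem bddBelow_ess (f : ℝ → EuclideanSpace ℝ (Fin d)) : BddBelow {B | EssBddBy f B} :=
  ⟨0, fun _ hB => hB.1⟩

theorem bddBelow_adm (A : Matrix (Fin d) (Fin d) ℝ) (c : ℝ) :
    BddBelow {K | IsAdmissible A c K} := ⟨0, fun _ hK => hK.1⟩

theorem bestConst_nonneg (A : Matrix (Fin d) (Fin d) ℝ) (c : ℝ) : 0 ≤ bestConst A c :=
  Real.sInf_nonneg (fun _ hK => hK.1)

/-- Passing from bounds for each `B` to admissibility. -/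
theorem admissible_of {A : Matrix (Fin d) (Fin d) ℝ} {c K : ℝ} (hK : 0 < K)
    (h : ∀ f u v : ℝ → EuclideanSpace ℝ (Fin d), LocallyIntegrableOn f (Set.Ici 0) →
      IsSolution A c f u v → ∀ B T₀ : ℝ, 0 ≤ B → 0 ≤ T₀ → (∀ᵐ t, T₀ < t → ‖f t‖ ≤ B) →
      ∀ ε : ℝ, 0 < ε → ∀ᶠ t in atTop, ‖v t‖ ≤ K * B + ε) : IsAdmissible A c K := by
  refine ⟨hK.le, fun f u v hf hB hs ε hε => ?_⟩
  obtain ⟨B, hBS, hBlt⟩ := exists_lt_of_csInf_lt (s := {B | EssBddBy f B}) hB
    (show essLimsup f < essLimsup f + ε / (2 * K) by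
      have : 0 < ε / (2 * K) := by positivity
      linarith)
  obtain ⟨hB0, T, hT⟩ := hBS
  have h1 := h f u v hf hs B (max T 0) hB0 (le_max_right _ _) (by
    filter_upwards [hT] with t ht hm
    exact ht (lt_of_le_of_lt (le_max_left _ _) hm)) (ε / 2) (by positivity)
  filter_upwards [h1] with t ht
  have h2 : K * B ≤ K * (essLimsup f + ε / (2 * K)) := mul_le_mul_of_nonneg_left hBlt.le hK.le
  have h3 : K * (essLimsup f + ε / (2 * K)) = K * essLimsup f + ε / 2 := by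
    field_simp
  linarith

theorem admissible_overdamped {A : Matrix (Fin d) (Fin d) ℝ} (hA : A.PosDef) {c : ℝ} (hc : 0 < c)
    (hover : ∀ i, 4 * hA.isHermitian.eigenvalues i ≤ c ^ 2) :
    IsAdmissible A c ((1 + Real.sqrt d) / c) :=
  admissible_of (by positivity) (fun _ _ _ _ hs _ _ hB hT hf _ hε =>
    upper_bound hA hc hover hs hB hT hf hε)

theorem admissible_lower (hd : 1 ≤ d) {δ : ℝ} (hδ : 0 < δ) :
    ∃ A : Matrix (Fin d) (Fin d) ℝ, A.PosDef ∧ ∀ᶠ c : ℝ in atTop, ∀ K, IsAdmissible A c K →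
      (1 + Real.sqrt d - δ) / c ≤ K := by
  obtain ⟨lam, hlam, h⟩ := lower_bound hd hδ
  refine ⟨Matrix.diagonal lam, Matrix.PosDef.diagonal hlam, ?_⟩
  filter_upwards [h] with c hc K hK
  obtain ⟨f, u, v, hfm, hf1, hs, hN⟩ := hc
  have hB : EssBddBy f 1 := ⟨zero_le_one, 0, Eventually.of_forall (fun t _ => hf1 t)⟩
  have hess : essLimsup f ≤ 1 := csInf_le (bddBelow_ess f) hB
  have hloc : LocallyIntegrableOn f (Set.Ici 0) := by
    have h1 : LocallyIntegrable (fun _ : ℝ => (1 : ℝ)) volume := locallyIntegrable_const 1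
    refine (h1.mono hfm.aestronglyMeasurable (Eventually.of_forall (fun t => ?_))).locallyIntegrableOn _
    simpa using hf1 t
  refine le_of_forall_pos_le_add (fun ε hε => ?_)
  obtain ⟨N, hN'⟩ := eventually_atTop.1 (hK.2 f u v hloc ⟨1, hB⟩ hs ε hε)
  obtain ⟨t, ht, hv⟩ := hN N
  have h2 := hN' t ht
  have h3 : K * essLimsup f ≤ K * 1 := mul_le_mul_of_nonneg_left hess hK.1
  linarith

theorem eventually_overdamped {A : Matrix (Fin d) (Fin d) ℝ} (hA : A.PosDef) :
    ∀ᶠ c : ℝ in atTop, 0 < c ∧ ∀ i, 4 * hA.isHermitian.eigenvalues i ≤ c ^ 2 := by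
  have h1 : ∀ i, ∀ᶠ c : ℝ in atTop, 4 * hA.isHermitian.eigenvalues i ≤ c := fun i =>
    eventually_ge_atTop _
  filter_upwards [eventually_all.2 h1, eventually_ge_atTop (1 : ℝ)] with c h2 h3
  exact ⟨by linarith, fun i => le_trans (h2 i) (by nlinarith)⟩

/-- `L_d = 1 + √d`. -/
theorem limit_constant (hd : 1 ≤ d) :
    IsLUB {x : ℝ | ∃ A : Matrix (Fin d) (Fin d) ℝ, A.PosDef ∧
      x = liminf (fun c : ℝ => c * bestConst A c) atTop} (1 + Real.sqrt d) := by
  have hup : ∀ A : Matrix (Fin d) (Fin d) ℝ, A.PosDef →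
      ∀ᶠ c : ℝ in atTop, 0 < c ∧ c * bestConst A c ≤ 1 + Real.sqrt d := by
    intro A hA
    filter_upwards [eventually_overdamped hA] with c hc
    refine ⟨hc.1, ?_⟩
    have h1 : bestConst A c ≤ (1 + Real.sqrt d) / c :=
      csInf_le (bddBelow_adm A c) (admissible_overdamped hA hc.1 hc.2)
    have h2 := mul_le_mul_of_nonneg_left h1 hc.1.le
    rwa [mul_div_cancel₀ _ hc.1.ne'] at h2
  have hlow : ∀ A : Matrix (Fin d) (Fin d) ℝ, ∀ᶠ c : ℝ in atTop, 0 ≤ c * bestConst A c := by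
    intro A
    filter_upwards [eventually_ge_atTop (0 : ℝ)] with c hc
    exact mul_nonneg hc (bestConst_nonneg A c)
  constructor
  · rintro x ⟨A, hA, rfl⟩
    refine liminf_le_of_le ⟨0, ?_⟩ (fun b hb => ?_)
    · rw [eventually_map]
      exact hlow A
    · obtain ⟨c, h1, h2⟩ := (hb.and (hup A hA)).exists
      linarith [h2.2]
  · intro z hz
    refine le_of_forall_pos_le_add (fun δ hδ => ?_)
    obtain ⟨A, hA, h⟩ := admissible_lower hd hδ
    have h1 : 1 + Real.sqrt d - δ ≤ liminf (fun c : ℝ => c * bestConst A c) atTop := by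
      refine le_liminf_of_le ?_ ?_
      · refine IsBoundedUnder.isCoboundedUnder_ge ⟨1 + Real.sqrt d, ?_⟩
        rw [eventually_map]
        filter_upwards [hup A hA] with c hc
        exact hc.2
      · filter_upwards [h, eventually_overdamped hA] with c hc hov
        have h2 : (1 + Real.sqrt d - δ) / c ≤ bestConst A c :=
          le_csInf ⟨_, admissible_overdamped hA hov.1 hov.2⟩ hc
        rw [div_le_iff₀ hov.1] at h2
        linarith
    have h2 := hz ⟨A, hA, rfl⟩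
    linarith

end Pool.Agent.X188.Osc
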