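import Mathlib

set_option autoImplicit false
set_option linter.unusedSectionVars false

/-!
# Comparison for first order equations with absolutely continuous solutions
-/

open MeasureTheory Set Filter

namespace Pool.Agent.X188.Osc

theorem ac_le {f : ℝ → ℝ} {a b : ℝ} (hab : a ≤ b) (hf : AbsolutelyContinuousOnInterval f a b)
    (h : ∀ᵐ t, t ∈ Set.Ioc a b → 0 ≤ deriv f t) : f a ≤ f b := by
  have h1 := hf.integral_deriv_eq_sub
  have h2 : 0 ≤ ∫ x in a..b, deriv f x := by
    rw [intervalIntegral.integral_of_le hab]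
    refine integral_nonneg_of_ae ?_
    rw [EventuallyLE, ae_restrict_iff' measurableSet_Ioc]
    exact h
  linarith

theorem ac_of_contDiff {f : ℝ → ℝ} (hf : ContDiff ℝ 1 f) (a b : ℝ) :
    AbsolutelyContinuousOnInterval f a b :=
  (hf.contDiffOn).absolutelyContinuousOnInterval

/-- One-sided comparison. -/
theorem lower {y φ : ℝ → ℝ} {p m a b : ℝ} (hp : 0 < p) (hab : a ≤ b)
    (hy : AbsolutelyContinuousOnInterval y a b)
    (hd : ∀ᵐ t, t ∈ Set.Ioc a b → HasDerivAt y (φ t - p * y t) t)
    (hφ : ∀ᵐ t, t ∈ Set.Ioc a b → m ≤ φ t) :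
    m / p + (y a - m / p) * Real.exp (-(p * (b - a))) ≤ y b := by
  have hE : AbsolutelyContinuousOnInterval (fun s => Real.exp (p * s)) a b :=
    ac_of_contDiff (by fun_prop) a b
  have hc : AbsolutelyContinuousOnInterval (fun _ : ℝ => m / p) a b :=
    ac_of_contDiff (by fun_prop) a b
  have hz : AbsolutelyContinuousOnInterval (fun s => Real.exp (p * s) * (y s - m / p)) a b :=
    hE.fun_mul (hy.fun_sub hc)
  have h1 := ac_le hab hz (by
    filter_upwards [hd, hφ] with t h1 h2 ht
    have hdE : HasDerivAt (fun s => Real.exp (p * s)) (p * Real.exp (p * t)) t := by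
      have := ((hasDerivAt_id t).const_mul p).exp
      simpa [mul_comm] using this
    have h3 := hdE.mul ((h1 ht).sub_const (m / p))
    have h4 : deriv (fun s => Real.exp (p * s) * (y s - m / p)) t =
        Real.exp (p * t) * (φ t - m) := by
      refine (h3.congr_deriv ?_).deriv
      field_simp
      ring
    rw [h4]
    exact mul_nonneg (Real.exp_pos _).le (by linarith [h2 ht]))
  have h5 : Real.exp (-(p * (b - a))) = Real.exp (p * a) / Real.exp (p * b) := by
    rw [← Real.exp_sub]
    congr 1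
    ring
  rw [h5]
  have h6 : (y a - m / p) * (Real.exp (p * a) / Real.exp (p * b)) ≤ y b - m / p := by
    rw [← mul_div_assoc, div_le_iff₀ (Real.exp_pos _)]
    linarith
  linarith

/-- Two-sided bound. -/
theorem abs_bound {y φ : ℝ → ℝ} {p B a b : ℝ} (hp : 0 < p) (hB : 0 ≤ B) (hab : a ≤ b)
    (hy : AbsolutelyContinuousOnInterval y a b)
    (hd : ∀ᵐ t, t ∈ Set.Ioc a b → HasDerivAt y (φ t - p * y t) t)
    (hφ : ∀ᵐ t, t ∈ Set.Ioc a b → |φ t| ≤ B) :
    |y b| ≤ B / p + |y a| * Real.exp (-(p * (b - a))) := by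
  have h1 := lower (m := -B) hp hab hy hd (by
    filter_upwards [hφ] with t ht hm
    exact (abs_le.1 (ht hm)).1)
  have h2 := lower (y := fun t => -y t) (φ := fun t => -φ t) (m := -B) hp hab hy.fun_neg (by
    filter_upwards [hd] with t ht hm
    refine (ht hm).fun_neg.congr_deriv ?_
    ring) (by
    filter_upwards [hφ] with t ht hm
    linarith [(abs_le.1 (ht hm)).2])
  have hE := Real.exp_pos (-(p * (b - a)))
  have hE1 : Real.exp (-(p * (b - a))) ≤ 1 := by
    rw [Real.exp_le_one_iff]
    have := mul_nonneg hp.le (sub_nonneg.2 hab)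
    linarith
  have hBp : 0 ≤ B / p := by positivity
  have h3 : -B / p = -(B / p) := by ring
  rw [h3] at h1 h2
  have h4 : 0 ≤ B / p * Real.exp (-(p * (b - a))) := by positivity
  have h5 := mul_le_mul_of_nonneg_right (neg_abs_le (y a)) hE.le
  have h6 := mul_le_mul_of_nonneg_right (le_abs_self (y a)) hE.le
  rw [abs_le]
  constructor <;> nlinarith

end Pool.Agent.X188.Osc
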