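import Pool.Agent.X188.Osc.KernelB
import Pool.Agent.X188.Osc.Const

set_option autoImplicit false
set_option linter.unusedSectionVars false

/-!
# Scalar representation with a kernel dominated by the common kernel
-/

open MeasureTheory Set Filter

namespace Pool.Agent.X188.Osc

theorem ac_repr {Φ ψ : ℝ → ℝ} {a b : ℝ} (hab : a ≤ b) (hΦ : AbsolutelyContinuousOnInterval Φ a b)
    (hd : ∀ᵐ s, s ∈ Set.Ioc a b → HasDerivAt Φ (ψ s) s) :
    ∫ s in a..b, ψ s = Φ b - Φ a := by
  rw [← hΦ.integral_deriv_eq_sub]
  refine intervalIntegral.integral_congr_ae ?_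
  filter_upwards [hd] with s hs hm
  rw [uIoc_of_le hab] at hm
  exact (hs hm).deriv.symm

theorem abs_gk_le {γ ω : ℝ} (hω : 0 < ω) (t : ℝ) : |gk γ ω t| ≤ Real.exp (-γ * t) * (1 / ω) := by
  unfold gk
  rw [abs_mul, abs_of_pos (Real.exp_pos _), abs_div, abs_of_pos hω]
  have := Real.abs_sin_le_one (ω * t)
  gcongr

theorem abs_hk_le {γ ω : ℝ} (hγ : 0 < γ) (hω : 0 < ω) (t : ℝ) :
    |hk γ ω t| ≤ Real.exp (-γ * t) * (1 + γ / ω) := by
  unfold hk
  rw [abs_mul, abs_of_pos (Real.exp_pos _)]
  refine mul_le_mul_of_nonneg_left ?_ (Real.exp_pos _).le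
  refine le_trans (abs_sub _ _) ?_
  rw [abs_mul, abs_of_pos (show 0 < γ / ω by positivity)]
  have h1 := Real.abs_sin_le_one (ω * t)
  have h2 := Real.abs_cos_le_one (ω * t)
  have h3 : γ / ω * |Real.sin (ω * t)| ≤ γ / ω * 1 :=
    mul_le_mul_of_nonneg_left h1 (by positivity)
  linarith

/-- Each coordinate is, up to an error at most `B / c`, the response to a kernel dominated by
`exp (-c s)`. -/
theorem exists_theta {w v f : ℝ → ℝ} {c lam B T₀ : ℝ} (hc : 0 < c) (hlam : 0 < lam) (hB : 0 ≤ B)
    (hT₀ : 0 ≤ T₀)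
    (hw : ∀ t, 0 ≤ t → HasDerivWithinAt w (v t) (Set.Ici 0) t)
    (hvc : ContinuousOn v (Set.Ici 0))
    (hv : ∀ T, 0 ≤ T → AbsolutelyContinuousOnInterval v 0 T)
    (hd : ∀ᵐ t, 0 < t → HasDerivAt v (f t - c * v t - lam * w t) t)
    (hfi : ∀ a b, 0 ≤ a → a ≤ b → IntervalIntegrable f volume a b)
    (hf : ∀ᵐ t, T₀ < t → |f t| ≤ B) :
    ∃ θ : ℝ → ℝ, Continuous θ ∧ (∀ s, 0 ≤ s → |θ s| ≤ Real.exp (-(c * s))) ∧
      ∀ ε : ℝ, 0 < ε → ∀ᶠ T in atTop, ∀ᶠ t in atTop,
        |v t - ∫ s in T..t, θ (t - s) * f s| ≤ (B + ε) / c := by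
  have hwac := ac_of_hasDeriv hw hvc
  have hwd : ∀ t, 0 < t → HasDerivAt w (v t) t := fun t ht =>
    (hw t ht.le).hasDerivAt (Ici_mem_nhds ht)
  have hwc : ContinuousOn w (Set.Ici 0) := fun t ht => (hw t ht).continuousWithinAt
  rcases le_or_gt (4 * lam) (c ^ 2) with hcase | hcase
  · -- overdamped
    refine ⟨fun s => Real.exp (-(c * s)), by fun_prop, fun s _ => by
      rw [abs_of_pos (Real.exp_pos _)], fun ε hε => ?_⟩
    set r := Real.sqrt (c ^ 2 - 4 * lam) with hr
    have hr2 : r ^ 2 = c ^ 2 - 4 * lam := Real.sq_sqrt (by linarith)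
    have hr0 : 0 ≤ r := Real.sqrt_nonneg _
    have hrc : r < c := by nlinarith
    have hpq : (c - r) / 2 * ((c + r) / 2) = lam := by nlinarith
    have h := scalar_bound (w := w) (v := v) (f := f) (p := (c - r) / 2) (q := (c + r) / 2)
      (B := B) (T₀ := T₀) (by linarith) (by linarith) hB hT₀ hw hvc hv (by
        filter_upwards [hd] with t ht h0
        refine (ht h0).congr_deriv ?_
        rw [hpq]
        ring) hf (show 0 < ε / 2 by positivity)
    rw [hpq] at h
    obtain ⟨T₁, hT₁⟩ := eventually_atTop.1 h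
    filter_upwards [eventually_ge_atTop T₁, eventually_ge_atTop (0 : ℝ)] with T hTT hT0
    filter_upwards [eventually_ge_atTop T, eventually_exp (K := |v T|) (a := T) hc
      (show 0 < ε / 2 / c by positivity)] with t ht hE
    have hAC : AbsolutelyContinuousOnInterval (fun s => Real.exp (c * s) * v s) T t :=
      (ac_of_contDiff (f := fun s : ℝ => Real.exp (c * s)) (by fun_prop) T t).fun_mul
        (ac_sub hT0 ht le_rfl (hv t (le_trans hT0 ht)))
    have h1 := ac_repr ht hAC (ψ := fun s => Real.exp (c * s) * (f s - lam * w s)) (by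
      filter_upwards [hd] with s hs hm
      refine ((hasDerivAt_exp_mul c s).mul (hs (lt_of_le_of_lt hT0 hm.1))).congr_deriv ?_
      ring)
    have hwi : IntervalIntegrable w volume T t :=
      (hwc.mono (by
        rw [uIcc_of_le ht]
        exact fun x hx => le_trans hT0 hx.1)).intervalIntegrable
    have hE1 : ContinuousOn (fun s : ℝ => Real.exp (c * s)) (Set.uIcc T t) := by fun_prop
    have h2 : ∫ s in T..t, Real.exp (c * s) * (f s - lam * w s) =
        (∫ s in T..t, Real.exp (c * s) * f s) - ∫ s in T..t, Real.exp (c * s) * (lam * w s) := by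
      rw [← intervalIntegral.integral_sub ((hfi T t hT0 ht).continuousOn_mul hE1)
        ((hwi.const_mul lam).continuousOn_mul hE1)]
      refine intervalIntegral.integral_congr (fun s _ => ?_)
      ring
    have h3 : ∫ s in T..t, Real.exp (-(c * (t - s))) * f s =
        Real.exp (-(c * t)) * ∫ s in T..t, Real.exp (c * s) * f s := by
      rw [← intervalIntegral.integral_const_mul]
      refine intervalIntegral.integral_congr (fun s _ => ?_)
      show Real.exp (-(c * (t - s))) * f s = Real.exp (-(c * t)) * (Real.exp (c * s) * f s)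
      rw [← mul_assoc, ← Real.exp_add]
      congr 2
      ring
    have h4 : |∫ s in T..t, Real.exp (c * s) * (lam * w s)| ≤
        ∫ s in T..t, Real.exp (c * s) * (B + ε / 2) := by
      rw [← Real.norm_eq_abs]
      refine intervalIntegral.norm_integral_le_of_norm_le (μ := volume)
        (g := fun s => Real.exp (c * s) * (B + ε / 2)) ht
        (Eventually.of_forall (fun s hs => ?_)) (Continuous.intervalIntegrable (by fun_prop) _ _)
      rw [Real.norm_eq_abs, abs_mul, abs_of_pos (Real.exp_pos _), abs_mul, abs_of_pos hlam]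
      exact mul_le_mul_of_nonneg_left (hT₁ s (le_trans hTT hs.1.le)) (Real.exp_pos _).le
    have h5 : ∫ s in T..t, Real.exp (c * s) * (B + ε / 2) =
        Real.exp (c * t) * ((B + ε / 2) / c) - Real.exp (c * T) * ((B + ε / 2) / c) := by
      have := intervalIntegral.integral_eq_sub_of_hasDerivAt
        (f := fun s => Real.exp (c * s) * ((B + ε / 2) / c))
        (f' := fun s => Real.exp (c * s) * (B + ε / 2)) (a := T) (b := t)
        (fun s _ => ((hasDerivAt_exp_mul c s).mul_const _).congr_deriv (by field_simp))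
        (Continuous.intervalIntegrable (by fun_prop) _ _)
      exact this
    have hEt : Real.exp (-(c * t)) * Real.exp (c * t) = 1 := by
      rw [← Real.exp_add]
      simp
    have hET : Real.exp (-(c * t)) * Real.exp (c * T) = Real.exp (-(c * (t - T))) := by
      rw [← Real.exp_add]
      congr 1
      ring
    show |v t - ∫ s in T..t, Real.exp (-(c * (t - s))) * f s| ≤ (B + ε) / c
    rw [h3]
    have h6 : v t - Real.exp (-(c * t)) * ∫ s in T..t, Real.exp (c * s) * f s =
        Real.exp (-(c * (t - T))) * v T -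
          Real.exp (-(c * t)) * ∫ s in T..t, Real.exp (c * s) * (lam * w s) := by
      rw [h2] at h1
      have h7 : Real.exp (-(c * t)) * ((∫ s in T..t, Real.exp (c * s) * f s) -
          ∫ s in T..t, Real.exp (c * s) * (lam * w s)) =
          Real.exp (-(c * t)) * (Real.exp (c * t) * v t - Real.exp (c * T) * v T) := by rw [h1]
      have h8 : Real.exp (-(c * t)) * (Real.exp (c * t) * v t - Real.exp (c * T) * v T) =
          v t - Real.exp (-(c * (t - T))) * v T := by
        rw [← hET]
        linear_combination (v t) * hEt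
      rw [h8] at h7
      linarith
    rw [h6]
    refine le_trans (abs_sub _ _) ?_
    rw [abs_mul, abs_mul, abs_of_pos (Real.exp_pos _), abs_of_pos (Real.exp_pos _)]
    have h9 : Real.exp (-(c * t)) * |∫ s in T..t, Real.exp (c * s) * (lam * w s)| ≤
        (B + ε / 2) / c := by
      have h10 := mul_le_mul_of_nonneg_left (le_trans h4 (le_of_eq h5))
        (Real.exp_pos (-(c * t))).le
      have h11 : Real.exp (-(c * t)) * (Real.exp (c * t) * ((B + ε / 2) / c) -
          Real.exp (c * T) * ((B + ε / 2) / c)) =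
          (B + ε / 2) / c - Real.exp (-(c * t)) * Real.exp (c * T) * ((B + ε / 2) / c) := by
        linear_combination ((B + ε / 2) / c) * hEt
      have h12 : 0 ≤ Real.exp (-(c * t)) * Real.exp (c * T) * ((B + ε / 2) / c) := by positivity
      linarith
    have h13 : (B + ε) / c = (B + ε / 2) / c + ε / 2 / c := by
      field_simp
      ring
    linarith [mul_comm (|v T|) (Real.exp (-(c * (t - T))))]
  · -- underdamped
    set γ := c / 2 with hγdef
    have hγ : 0 < γ := by positivity
    have hγl : γ ^ 2 < lam := by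
      rw [hγdef]
      nlinarith
    set ω := Real.sqrt (lam - γ ^ 2) with hωdef
    have hω : 0 < ω := Real.sqrt_pos.2 (by linarith)
    have hω2 : ω ^ 2 = lam - γ ^ 2 := Real.sq_sqrt (by linarith)
    have hlam2 : γ ^ 2 + ω ^ 2 = lam := by linarith
    have hhc : Continuous (hk γ ω) :=
      continuous_iff_continuousAt.2 (fun t => (hasDerivAt_hk hω t).continuousAt)
    have hgc : Continuous (gk γ ω) :=
      continuous_iff_continuousAt.2 (fun t => (hasDerivAt_gk hω t).continuousAt)
    have hker : ∀ S, 0 ≤ S →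
        ∫ s in (0 : ℝ)..S, |hk γ ω s - clip (Real.exp (-(2 * γ) * s)) (hk γ ω s)| ≤
          1 / (2 * γ) := by
      intro S hS
      rcases le_total (13 / 9 * γ ^ 2) lam with h1 | h1
      · refine kernel_A hγ h1 (hasDerivAt_gk hω) (fun t => ?_) (by simp [gk]) (by simp [hk]) hS
        have := hasDerivAt_hk (γ := γ) hω t
        rwa [hlam2] at this
      · refine kernel_B hγ hω ?_ hS
        have h2 : ω ^ 2 ≤ (2 / 3 * γ) ^ 2 := by
          rw [hω2]
          nlinarith
        exact le_of_sq_le_sq h2 (by positivity)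
    refine ⟨fun s => clip (Real.exp (-(2 * γ) * s)) (hk γ ω s),
      continuous_clip (by fun_prop) hhc, fun s _ => ?_, fun ε hε => ?_⟩
    · have h1 := clip_abs (k := Real.exp (-(2 * γ) * s)) (x := hk γ ω s) (Real.exp_pos _).le
      have h2 : -(2 * γ) * s = -(c * s) := by
        rw [hγdef]
        ring
      refine le_trans h1 (le_of_eq ?_)
      rw [h2]
    filter_upwards [eventually_ge_atTop T₀, eventually_ge_atTop (0 : ℝ)] with T hTT hT0
    filter_upwards [eventually_ge_atTop T, eventually_exp
      (K := (1 + γ / ω) * |v T| + lam * (1 / ω) * |w T|) (a := T) hγ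
      (show 0 < ε / c by positivity)] with t ht hE
    -- representation
    have hHd : ∀ s, HasDerivAt (fun s => hk γ ω (t - s))
        (-(-(2 * γ) * hk γ ω (t - s) - lam * gk γ ω (t - s))) s := by
      intro s
      have h1 := (hasDerivAt_hk (γ := γ) hω (t - s)).comp s ((hasDerivAt_id s).const_sub t)
      rw [hlam2] at h1
      refine h1.congr_deriv ?_
      ring
    have hGd : ∀ s, HasDerivAt (fun s => gk γ ω (t - s)) (-hk γ ω (t - s)) s := by
      intro s
      have h1 := (hasDerivAt_gk (γ := γ) hω (t - s)).comp s ((hasDerivAt_id s).const_sub t)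
      refine h1.congr_deriv ?_
      ring
    have hHac : AbsolutelyContinuousOnInterval (fun s => hk γ ω (t - s)) T t :=
      ac_of_contDiff (by unfold hk; fun_prop) T t
    have hGac : AbsolutelyContinuousOnInterval (fun s => gk γ ω (t - s)) T t :=
      ac_of_contDiff (by unfold gk; fun_prop) T t
    have hvT := ac_sub hT0 ht le_rfl (hv t (le_trans hT0 ht))
    have hwT := ac_sub hT0 ht le_rfl (hwac t (le_trans hT0 ht))
    have h1 := ac_repr ht ((hHac.fun_mul hvT).fun_sub ((hGac.fun_mul hwT).const_mul lam))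
      (ψ := fun s => hk γ ω (t - s) * f s) (by
        filter_upwards [hd] with s hs hm
        have hs0 : 0 < s := lt_of_le_of_lt hT0 hm.1
        refine (((hHd s).mul (hs hs0)).sub (((hGd s).mul (hwd s hs0)).const_mul lam)).congr_deriv ?_
        rw [hγdef]
        ring)
    have hk0 : hk γ ω (t - t) = 1 := by simp [hk]
    have hg0 : gk γ ω (t - t) = 0 := by simp [gk]
    rw [hk0, hg0] at h1
    set θ : ℝ → ℝ := fun s => clip (Real.exp (-(2 * γ) * s)) (hk γ ω s) with hθ
    have hθc : Continuous θ := continuous_clip (by fun_prop) hhc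
    have hI1 : IntervalIntegrable (fun s => θ (t - s) * f s) volume T t :=
      (hfi T t hT0 ht).continuousOn_mul (by fun_prop)
    have hI2 : IntervalIntegrable (fun s => (hk γ ω (t - s) - θ (t - s)) * f s) volume T t :=
      (hfi T t hT0 ht).continuousOn_mul (by fun_prop)
    have h2 : ∫ s in T..t, hk γ ω (t - s) * f s = (∫ s in T..t, θ (t - s) * f s) +
        ∫ s in T..t, (hk γ ω (t - s) - θ (t - s)) * f s := by
      rw [← intervalIntegral.integral_add hI1 hI2]
      refine intervalIntegral.integral_congr (fun s _ => ?_)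
      ring
    have h3 : |∫ s in T..t, (hk γ ω (t - s) - θ (t - s)) * f s| ≤ B / c := by
      have h4 : |∫ s in T..t, (hk γ ω (t - s) - θ (t - s)) * f s| ≤
          ∫ s in T..t, |hk γ ω (t - s) - θ (t - s)| * B := by
        rw [← Real.norm_eq_abs]
        refine intervalIntegral.norm_integral_le_of_norm_le (μ := volume)
          (g := fun s => |hk γ ω (t - s) - θ (t - s)| * B) ht ?_
          (Continuous.intervalIntegrable (by fun_prop) _ _)
        filter_upwards [hf] with s hs hm
        rw [Real.norm_eq_abs, abs_mul]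
        exact mul_le_mul_of_nonneg_left (hs (lt_of_le_of_lt hTT hm.1)) (abs_nonneg _)
      have h5 : ∫ s in T..t, |hk γ ω (t - s) - θ (t - s)| * B =
          (∫ s in (0 : ℝ)..(t - T), |hk γ ω s - θ s|) * B := by
        rw [intervalIntegral.integral_mul_const]
        congr 1
        have := intervalIntegral.integral_comp_sub_left (fun s => |hk γ ω s - θ s|) t
          (a := T) (b := t)
        rw [sub_self] at this
        exact this
      rw [h5] at h4
      have h6 := mul_le_mul_of_nonneg_right (hker (t - T) (by linarith)) hB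
      have h7 : 1 / (2 * γ) * B = B / c := by
        rw [hγdef]
        field_simp
      linarith
    have h8 : v t - ∫ s in T..t, θ (t - s) * f s =
        hk γ ω (t - T) * v T - lam * (gk γ ω (t - T) * w T) +
          ∫ s in T..t, (hk γ ω (t - s) - θ (t - s)) * f s := by
      rw [h2] at h1
      linarith
    show |v t - ∫ s in T..t, θ (t - s) * f s| ≤ (B + ε) / c
    rw [h8]
    have h9 := abs_hk_le (γ := γ) hγ hω (t - T)
    have h10 := abs_gk_le (γ := γ) hω (t - T)
    have h11 : |hk γ ω (t - T) * v T| ≤ Real.exp (-γ * (t - T)) * (1 + γ / ω) * |v T| := by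
      rw [abs_mul]
      exact mul_le_mul_of_nonneg_right h9 (abs_nonneg _)
    have h12 : |lam * (gk γ ω (t - T) * w T)| ≤
        lam * (Real.exp (-γ * (t - T)) * (1 / ω) * |w T|) := by
      rw [abs_mul, abs_of_pos hlam, abs_mul]
      exact mul_le_mul_of_nonneg_left (mul_le_mul_of_nonneg_right h10 (abs_nonneg _)) hlam.le
    have h13 : Real.exp (-(γ * (t - T))) = Real.exp (-γ * (t - T)) := by
      congr 1
      ring
    rw [h13] at hE
    refine le_trans (abs_add_le _ _) ?_
    refine le_trans (add_le_add_left (abs_sub _ _) _) ?_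
    have h14 : (B + ε) / c = B / c + ε / c := by ring
    rw [h14]
    have h15 : Real.exp (-γ * (t - T)) * (1 + γ / ω) * |v T| +
        lam * (Real.exp (-γ * (t - T)) * (1 / ω) * |w T|) =
        ((1 + γ / ω) * |v T| + lam * (1 / ω) * |w T|) * Real.exp (-γ * (t - T)) := by ring
    linarith

end Pool.Agent.X188.Osc
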