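import Pool.Agent.X188.Osc.General

set_option autoImplicit false
set_option linter.unusedSectionVars false

/-!
# The upper bound in general
-/

open MeasureTheory Set Filter
open scoped RealInnerProductSpace

namespace Pool.Agent.X188.Osc

variable {d : ℕ}

theorem kernel_norm_bound {V : Fin d → ℝ} {θ φ : Fin d → ℝ → ℝ} {c B T t : ℝ} (hc : 0 < c)
    (hB : 0 ≤ B) (hTt : T ≤ t) (hV : ∀ i, V i = ∫ s in T..t, θ i (t - s) * φ i s)
    (hθ : ∀ i s, 0 ≤ s → |θ i s| ≤ Real.exp (-(c * s)))
    (hint : ∀ i, IntervalIntegrable (fun s => θ i (t - s) * φ i s) volume T t)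
    (hφ : ∀ᵐ s, s ∈ Set.Ioc T t → ∑ i, φ i s ^ 2 ≤ B ^ 2) :
    Real.sqrt (∑ i, V i ^ 2) ≤ B / c := by
  set N := Real.sqrt (∑ i, V i ^ 2) with hN
  have hN0 : 0 ≤ N := Real.sqrt_nonneg _
  have hN2 : N ^ 2 = ∑ i, V i ^ 2 := Real.sq_sqrt (Finset.sum_nonneg (fun i _ => sq_nonneg _))
  have h1 : N ^ 2 = ∫ s in T..t, ∑ i, V i * (θ i (t - s) * φ i s) := by
    rw [intervalIntegral.integral_finsetSum (fun i _ => (hint i).const_mul (V i)), hN2]
    refine Finset.sum_congr rfl (fun i _ => ?_)
    rw [intervalIntegral.integral_const_mul, ← hV i]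
    ring
  have h2 : ‖∫ s in T..t, ∑ i, V i * (θ i (t - s) * φ i s)‖ ≤
      ∫ s in T..t, Real.exp (-(c * (t - s))) * (N * B) := by
    refine intervalIntegral.norm_integral_le_of_norm_le (μ := volume)
      (g := fun s => Real.exp (-(c * (t - s))) * (N * B)) hTt ?_
      (Continuous.intervalIntegrable (by fun_prop) _ _)
    filter_upwards [hφ] with s hs hm
    rw [Real.norm_eq_abs]
    refine le_trans (Finset.abs_sum_le_sum_abs _ _) ?_
    have h3 : ∀ i, |V i * (θ i (t - s) * φ i s)| ≤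
        Real.exp (-(c * (t - s))) * (|V i| * |φ i s|) := by
      intro i
      rw [abs_mul, abs_mul]
      have h4 := mul_le_mul_of_nonneg_right (hθ i (t - s) (by linarith [hm.2]))
        (mul_nonneg (abs_nonneg (V i)) (abs_nonneg (φ i s)))
      linarith
    refine le_trans (Finset.sum_le_sum (fun i _ => h3 i)) ?_
    rw [← Finset.mul_sum]
    refine mul_le_mul_of_nonneg_left ?_ (Real.exp_pos _).le
    have h5 := Real.sum_mul_le_sqrt_mul_sqrt Finset.univ (fun i => |V i|) (fun i => |φ i s|)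
    simp only [sq_abs] at h5
    refine le_trans h5 ?_
    rw [← hN]
    refine mul_le_mul_of_nonneg_left ?_ hN0
    rw [Real.sqrt_le_iff]
    exact ⟨hB, hs hm⟩
  have h6 : ∫ s in T..t, Real.exp (-(c * (t - s))) * (N * B) ≤ N * B / c := by
    have h7 := intervalIntegral.integral_eq_sub_of_hasDerivAt
      (f := fun s => Real.exp (-(c * (t - s))) * (N * B / c))
      (f' := fun s => Real.exp (-(c * (t - s))) * (N * B)) (a := T) (b := t)
      (fun s _ => by
        have h8 : HasDerivAt (fun s => -(c * (t - s))) c s := by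
          have := (((hasDerivAt_id s).const_sub t).const_mul c).neg
          refine this.congr_deriv ?_
          ring
        refine (h8.exp.mul_const (N * B / c)).congr_deriv ?_
        field_simp)
      (Continuous.intervalIntegrable (by fun_prop) _ _)
    rw [h7, sub_self, mul_zero, neg_zero, Real.exp_zero, one_mul]
    have : 0 ≤ Real.exp (-(c * (t - T))) * (N * B / c) := by positivity
    linarith
  have h9 : N ^ 2 ≤ N * (B / c) := by
    have h10 := le_trans (le_abs_self _) (le_trans h2 h6)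
    rw [← h1] at h10
    have h11 : N * B / c = N * (B / c) := by ring
    linarith
  rcases hN0.eq_or_lt with h | h
  · rw [← h]
    positivity
  · rw [sq] at h9
    exact le_of_mul_le_mul_left h9 h

theorem upper_bound_general {A : Matrix (Fin d) (Fin d) ℝ} (hA : A.PosDef) {c : ℝ} (hc : 0 < c)
    {f u v : ℝ → EuclideanSpace ℝ (Fin d)} (hfl : LocallyIntegrableOn f (Set.Ici 0))
    (hs : IsSolution A c f u v) {B T₀ : ℝ} (hB : 0 ≤ B)
    (hT₀ : 0 ≤ T₀) (hf : ∀ᵐ t, T₀ < t → ‖f t‖ ≤ B) {ε : ℝ} (hε : 0 < ε) :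
    ∀ᶠ t in atTop, ‖v t‖ ≤ (1 + Real.sqrt d) / c * B + ε := by
  set b := hA.isHermitian.eigenvectorBasis with hb
  set lam := hA.isHermitian.eigenvalues with hlam
  have hlp : ∀ i, 0 < lam i := fun i => hA.eigenvalues_pos i
  have hb1 : ∀ i, ‖b i‖ = 1 := fun i => b.orthonormal.1 i
  have hfi : ∀ i, ∀ x y : ℝ, 0 ≤ x → x ≤ y →
      IntervalIntegrable (fun t => ⟪b i, f t⟫) volume x y := by
    intro i x y hx hxy
    rw [intervalIntegrable_iff_integrableOn_Ioc_of_le hxy]
    have h1 : IntegrableOn f (Set.Icc x y) volume :=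
      hfl.integrableOn_compact_subset (fun z hz => le_trans hx hz.1) isCompact_Icc
    exact Integrable.const_inner (b i) (h1.mono_set Ioc_subset_Icc_self)
  have hex : ∀ i, ∃ θ : ℝ → ℝ, Continuous θ ∧
      (∀ s, 0 ≤ s → |θ s| ≤ Real.exp (-(c * s))) ∧
      ∀ ε : ℝ, 0 < ε → ∀ᶠ T in atTop, ∀ᶠ t in atTop,
        |⟪b i, v t⟫ - ∫ s in T..t, θ (t - s) * ⟪b i, f s⟫| ≤ (B + ε) / c := by
    intro i
    refine exists_theta (w := fun t => ⟪b i, u t⟫) (v := fun t => ⟪b i, v t⟫)
      (f := fun t => ⟪b i, f t⟫) hc (hlp i) hB hT₀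
      (fun t ht => hasDerivWithinAt_inner_const (hs.hasDeriv t ht) (b i))
      (by
        have := hs.cont
        fun_prop)
      (fun T hT => ac_inner (hs.absCont T hT) (b i)) ?_ (hfi i) ?_
    · filter_upwards [hs.eqn] with t ht h0
      refine (hasDerivAt_inner_const (ht h0) (b i)).congr_deriv ?_
      rw [inner_sub_right, inner_sub_right, real_inner_smul_right, inner_eigen, ← hb, ← hlam]
    · filter_upwards [hf] with t ht h0
      refine le_trans (abs_real_inner_le_norm _ _) ?_
      rw [hb1 i, one_mul]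
      exact ht h0
  choose θ hθc hθb hθ using hex
  have hsd : 0 ≤ Real.sqrt d := Real.sqrt_nonneg _
  set ε' := c * ε / (Real.sqrt d + 1) with hε'
  have hε'0 : 0 < ε' := by positivity
  obtain ⟨T, ⟨hTall, hTT⟩, hT0⟩ := (((eventually_all.2 (fun i => hθ i ε' hε'0)).and
    (eventually_ge_atTop T₀)).and (eventually_ge_atTop (0 : ℝ))).exists
  filter_upwards [eventually_all.2 hTall, eventually_ge_atTop T] with t ht hTt
  set V : Fin d → ℝ := fun i => ∫ s in T..t, θ i (t - s) * ⟪b i, f s⟫ with hV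
  have hint : ∀ i, IntervalIntegrable (fun s => θ i (t - s) * ⟪b i, f s⟫) volume T t := by
    intro i
    have := hθc i
    exact (hfi i T t hT0 hTt).continuousOn_mul (by fun_prop)
  have hNV := kernel_norm_bound (V := V) (θ := θ) (φ := fun i s => ⟪b i, f s⟫) hc hB hTt
    (fun i => rfl) hθb hint (by
      filter_upwards [hf] with s hs' hm
      have h1 := b.sum_sq_norm_inner_right (f s)
      simp only [Real.norm_eq_abs, sq_abs] at h1
      rw [h1]
      exact pow_le_pow_left₀ (norm_nonneg _) (hs' (lt_of_le_of_lt hTT hm.1)) 2)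
  set W : EuclideanSpace ℝ (Fin d) := ∑ i, V i • b i with hW
  have hWi : ∀ i, ⟪b i, W⟫ = V i := fun i => b.orthonormal.inner_right_fintype V i
  have hWn : ‖W‖ ≤ B / c := by
    have h1 := b.sum_sq_norm_inner_right W
    simp only [Real.norm_eq_abs, sq_abs, hWi] at h1
    rw [h1, Real.sqrt_sq (norm_nonneg _)] at hNV
    exact hNV
  have hdiff : ‖v t - W‖ ≤ Real.sqrt d * ((B + ε') / c) := by
    have h1 : ‖v t - W‖ ^ 2 ≤ (Real.sqrt d * ((B + ε') / c)) ^ 2 := by
      rw [← b.sum_sq_norm_inner_right]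
      have h2 : ∀ i, ‖⟪b i, v t - W⟫‖ ^ 2 ≤ ((B + ε') / c) ^ 2 := by
        intro i
        rw [inner_sub_right, hWi i, Real.norm_eq_abs]
        exact pow_le_pow_left₀ (abs_nonneg _) (ht i) 2
      refine le_trans (Finset.sum_le_sum (fun i _ => h2 i)) ?_
      rw [Finset.sum_const, Finset.card_univ, Fintype.card_fin, nsmul_eq_mul, mul_pow,
        Real.sq_sqrt (Nat.cast_nonneg d)]
    exact le_of_sq_le_sq h1 (by positivity)
  have h3 : ‖v t‖ ≤ ‖W‖ + ‖v t - W‖ := by
    have := norm_add_le W (v t - W)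
    rwa [add_sub_cancel] at this
  have h5 : Real.sqrt d * ε' / c ≤ ε := by
    rw [hε', div_le_iff₀ hc]
    have h6 : Real.sqrt d * (c * ε / (Real.sqrt d + 1)) =
        (Real.sqrt d / (Real.sqrt d + 1)) * (ε * c) := by
      field_simp
    rw [h6]
    have h7 : Real.sqrt d / (Real.sqrt d + 1) ≤ 1 := by
      rw [div_le_one (by positivity)]
      linarith
    have h8 : 0 ≤ ε * c := by positivity
    nlinarith
  have h9 : B / c + Real.sqrt d * ((B + ε') / c) =
      (1 + Real.sqrt d) / c * B + Real.sqrt d * ε' / c := by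
    ring
  linarith

theorem admissible_general {A : Matrix (Fin d) (Fin d) ℝ} (hA : A.PosDef) {c : ℝ} (hc : 0 < c) :
    IsAdmissible A c ((1 + Real.sqrt d) / c) :=
  admissible_of (by positivity) (fun _ _ _ hfl hs _ _ hB hT hf _ hε =>
    upper_bound_general hA hc hfl hs hB hT hf hε)

end Pool.Agent.X188.Osc
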