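import Mathlib

set_option autoImplicit false
set_option linter.unusedSectionVars false

/-!
# The kernel of an underdamped oscillator
-/

open MeasureTheory Set Filter

namespace Pool.Agent.X188.Osc

/-- clipping at level `k` -/
noncomputable def clip (k x : ℝ) : ℝ := max (-k) (min k x)

theorem clip_abs {k x : ℝ} (hk : 0 ≤ k) : |clip k x| ≤ k := by
  unfold clip
  rw [abs_le]
  exact ⟨le_max_left _ _, max_le (by linarith) (min_le_left _ _)⟩

theorem sub_clip_le {k x R : ℝ} (hk : 0 ≤ k) (hR : 0 ≤ R) (h1 : x - k ≤ R) (h2 : -x - k ≤ R) :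
    |x - clip k x| ≤ R := by
  unfold clip
  rcases le_total k x with h | h
  · rw [min_eq_left h, max_eq_right (by linarith), abs_of_nonneg (by linarith)]
    exact h1
  · rw [min_eq_right h]
    rcases le_total (-k) x with h' | h'
    · rw [max_eq_right h']
      simpa using hR
    · rw [max_eq_left h', abs_of_nonpos (by linarith)]
      linarith

theorem hasDerivAt_exp_mul (a t : ℝ) :
    HasDerivAt (fun s : ℝ => Real.exp (a * s)) (a * Real.exp (a * t)) t := by
  have := ((hasDerivAt_id t).const_mul a).exp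
  simpa [mul_comm] using this

theorem continuous_clip {k x : ℝ → ℝ} (hk : Continuous k) (hx : Continuous x) :
    Continuous (fun s => clip (k s) (x s)) := by
  unfold clip
  exact hk.neg.max (hk.min hx)

/-- Strongly underdamped regime. -/
theorem kernel_A {g h : ℝ → ℝ} {γ lam : ℝ} (hγ : 0 < γ) (hlam : 13 / 9 * γ ^ 2 ≤ lam)
    (hg : ∀ t, HasDerivAt g (h t) t)
    (hh : ∀ t, HasDerivAt h (-(2 * γ) * h t - lam * g t) t) (hg0 : g 0 = 0) (hh0 : h 0 = 1)
    {S : ℝ} (hS : 0 ≤ S) :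
    ∫ s in (0 : ℝ)..S, |h s - clip (Real.exp (-(2 * γ) * s)) (h s)| ≤ 1 / (2 * γ) := by
  have hγ2 : 0 < γ ^ 2 := by positivity
  obtain ⟨D, hD', rfl⟩ : ∃ D, 25 / 9 * γ ^ 2 ≤ D ∧ lam = (D + 3 * γ ^ 2) / 4 :=
    ⟨4 * lam - 3 * γ ^ 2, by linarith, by ring⟩
  have hD : 0 < D := by linarith
  set α := (D + γ ^ 2) / (2 * γ * D) with hα
  set β := (D + 3 * γ ^ 2) / (2 * D) with hβ
  set δ := (D + 3 * γ ^ 2) ^ 2 / (8 * γ * D) with hδ
  set M : ℝ → ℝ := fun s => 2 / (9 * γ) * (1 - Real.exp (-γ * s)) ^ 3 -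
    2 / 5 * (Real.exp (γ * s) * (α * h s ^ 2 + β * (g s * h s) + δ * g s ^ 2)) with hM
  have hgc : Continuous g := continuous_iff_continuousAt.2 (fun t => (hg t).continuousAt)
  have hhc : Continuous h := continuous_iff_continuousAt.2 (fun t => (hh t).continuousAt)
  have hMd : ∀ t, HasDerivAt M (Real.exp (-γ * t) * (2 / 3 * (1 - Real.exp (-γ * t)) ^ 2) +
      2 / 5 * (Real.exp (γ * t) * h t ^ 2)) t := by
    intro t
    have h1 := (((hasDerivAt_exp_mul (-γ) t).const_sub 1).pow 3).const_mul (2 / (9 * γ))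
    have h2 := (((((hh t).pow 2).const_mul α).add (((hg t).mul (hh t)).const_mul β)).add
      (((hg t).pow 2).const_mul δ))
    have h3 := ((hasDerivAt_exp_mul γ t).mul h2).const_mul (2 / 5)
    refine (h1.sub h3).congr_deriv ?_
    have e1 : 2 / (9 * γ) * (3 * (1 - Real.exp (-γ * t)) ^ 2 * (γ * Real.exp (-γ * t))) =
        Real.exp (-γ * t) * (2 / 3 * (1 - Real.exp (-γ * t)) ^ 2) := by
      field_simp
      norm_num
    have e2 : γ * (α * h t ^ 2 + β * (g t * h t) + δ * g t ^ 2) +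
        (α * (2 * h t * (-(2 * γ) * h t - (D + 3 * γ ^ 2) / 4 * g t)) +
          β * (h t * h t + g t * (-(2 * γ) * h t - (D + 3 * γ ^ 2) / 4 * g t)) +
          δ * (2 * g t * h t)) = -h t ^ 2 := by
      simp only [hα, hβ, hδ]
      field_simp
      ring
    have e3 : Real.exp (γ * t) * (γ * (α * h t ^ 2 + β * (g t * h t) + δ * g t ^ 2) +
        (α * (2 * h t * (-(2 * γ) * h t - (D + 3 * γ ^ 2) / 4 * g t)) +
          β * (h t * h t + g t * (-(2 * γ) * h t - (D + 3 * γ ^ 2) / 4 * g t)) +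
          δ * (2 * g t * h t))) = Real.exp (γ * t) * (-h t ^ 2) := by rw [e2]
    simp only [Pi.add_apply, Pi.pow_apply, Pi.mul_apply, Nat.cast_ofNat, Nat.reduceSub, pow_one]
    linear_combination e1 - 2 / 5 * e3
  have hpt : ∀ t, |h t - clip (Real.exp (-(2 * γ) * t)) (h t)| ≤
      Real.exp (-γ * t) * (2 / 3 * (1 - Real.exp (-γ * t)) ^ 2) +
      2 / 5 * (Real.exp (γ * t) * h t ^ 2) := by
    intro t
    set x := Real.exp (-γ * t) with hx
    have hx0 : 0 < x := Real.exp_pos _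
    have hxx : Real.exp (-(2 * γ) * t) = x * x := by
      rw [hx, ← Real.exp_add]
      congr 1
      ring
    have hxi : Real.exp (γ * t) * x = 1 := by
      rw [hx, ← Real.exp_add]
      simp
    set z := Real.exp (γ * t) with hz
    have hz0 : 0 < z := Real.exp_pos _
    have key : ∀ y : ℝ, y - x * x ≤ x * (2 / 3 * (1 - x) ^ 2) + 2 / 5 * (z * y ^ 2) := by
      intro y
      have h1 : 0 ≤ 2 / 5 * z * (y - 5 / 4 * x) ^ 2 := by positivity
      have h2 : 0 ≤ 2 / 3 * x * ((1 - x) - 3 / 4) ^ 2 := by positivity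
      have h3 : 2 / 5 * z * (y - 5 / 4 * x) ^ 2 =
          2 / 5 * (z * y ^ 2) - (z * x) * y + 5 / 8 * (z * x) * x := by ring
      rw [hxi] at h3
      nlinarith
    rw [hxx]
    refine sub_clip_le (by positivity) (by positivity) (key (h t)) ?_
    have := key (-h t)
    rwa [neg_sq] at this
  have hcont : Continuous fun s => |h s - clip (Real.exp (-(2 * γ) * s)) (h s)| :=
    (hhc.sub (continuous_clip (by fun_prop) hhc)).abs
  have hcont2 : Continuous fun t => Real.exp (-γ * t) * (2 / 3 * (1 - Real.exp (-γ * t)) ^ 2) +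
      2 / 5 * (Real.exp (γ * t) * h t ^ 2) := by fun_prop
  have h1 : ∫ s in (0 : ℝ)..S, |h s - clip (Real.exp (-(2 * γ) * s)) (h s)| ≤
      ∫ t in (0 : ℝ)..S, (Real.exp (-γ * t) * (2 / 3 * (1 - Real.exp (-γ * t)) ^ 2) +
      2 / 5 * (Real.exp (γ * t) * h t ^ 2)) :=
    intervalIntegral.integral_mono_on hS (hcont.intervalIntegrable _ _)
      (hcont2.intervalIntegrable _ _) (fun t _ => hpt t)
  rw [intervalIntegral.integral_eq_sub_of_hasDerivAt (fun t _ => hMd t)
    (hcont2.intervalIntegrable _ _)] at h1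
  have hM0 : M 0 = -(2 / 5 * α) := by
    simp [hM, hg0, hh0]
  have hMS : M S ≤ 2 / (9 * γ) := by
    have h2 : (1 - Real.exp (-γ * S)) ^ 3 ≤ 1 := by
      have h3 : 0 < Real.exp (-γ * S) := Real.exp_pos _
      have h4 : Real.exp (-γ * S) ≤ 1 := by
        rw [Real.exp_le_one_iff]
        nlinarith
      exact pow_le_one₀ (by linarith) (by linarith)
    have h5 : 0 ≤ α * h S ^ 2 + β * (g S * h S) + δ * g S ^ 2 := by
      have h6 : α * h S ^ 2 + β * (g S * h S) + δ * g S ^ 2 =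
          1 / (8 * γ * D) * (((D + 3 * γ ^ 2) * g S + 2 * γ * h S) ^ 2 +
            4 * D * h S ^ 2) := by
        simp only [hα, hβ, hδ]
        field_simp
        ring
      rw [h6]
      positivity
    have h9 : 0 ≤ 2 / 5 * (Real.exp (γ * S) * (α * h S ^ 2 + β * (g S * h S) + δ * g S ^ 2)) := by
      positivity
    have h10 : 2 / (9 * γ) * (1 - Real.exp (-γ * S)) ^ 3 ≤ 2 / (9 * γ) * 1 :=
      mul_le_mul_of_nonneg_left h2 (by positivity)
    simp only [hM]
    linarith
  have hα2 : α ≤ 17 / 25 / γ := by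
    rw [hα, div_le_div_iff₀ (by positivity) hγ]
    nlinarith [mul_pos hγ hD]
  have h11 : 2 / (9 * γ) + 2 / 5 * (17 / 25 / γ) ≤ 1 / (2 * γ) := by
    have h12 : 2 / (9 * γ) + 2 / 5 * (17 / 25 / γ) = (2 / 9 + 34 / 125) / γ := by
      field_simp
      norm_num
    have h13 : 1 / (2 * γ) = (1 / 2) / γ := by
      field_simp
    rw [h12, h13]
    gcongr
    norm_num
  linarith

end Pool.Agent.X188.Osc
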