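import Pool.Agent.X188.Osc.Kernel

set_option autoImplicit false
set_option linter.unusedSectionVars false

/-!
# The kernel of an underdamped oscillator, weakly underdamped regime
-/

open MeasureTheory Set Filter

namespace Pool.Agent.X188.Osc

/-- fundamental solution -/
noncomputable def gk (γ ω t : ℝ) : ℝ := Real.exp (-γ * t) * (Real.sin (ω * t) / ω)

/-- its derivative -/
noncomputable def hk (γ ω t : ℝ) : ℝ :=
  Real.exp (-γ * t) * (Real.cos (ω * t) - γ / ω * Real.sin (ω * t))

theorem hasDerivAt_sin_mul (ω t : ℝ) :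
    HasDerivAt (fun s : ℝ => Real.sin (ω * s)) (ω * Real.cos (ω * t)) t := by
  have := ((hasDerivAt_id t).const_mul ω).sin
  simpa [mul_comm] using this

theorem hasDerivAt_cos_mul (ω t : ℝ) :
    HasDerivAt (fun s : ℝ => Real.cos (ω * s)) (-(ω * Real.sin (ω * t))) t := by
  have := ((hasDerivAt_id t).const_mul ω).cos
  simpa [mul_comm] using this

theorem hasDerivAt_gk {γ ω : ℝ} (hω : 0 < ω) (t : ℝ) :
    HasDerivAt (gk γ ω) (hk γ ω t) t := by
  unfold gk hk
  refine ((hasDerivAt_exp_mul (-γ) t).mul ((hasDerivAt_sin_mul ω t).div_const ω)).congr_deriv ?_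
  field_simp
  ring

theorem hasDerivAt_hk {γ ω : ℝ} (hω : 0 < ω) (t : ℝ) :
    HasDerivAt (hk γ ω) (-(2 * γ) * hk γ ω t - (γ ^ 2 + ω ^ 2) * gk γ ω t) t := by
  unfold gk hk
  refine ((hasDerivAt_exp_mul (-γ) t).mul ((hasDerivAt_cos_mul ω t).sub
    ((hasDerivAt_sin_mul ω t).const_mul (γ / ω)))).congr_deriv ?_
  simp only [Pi.sub_apply]
  field_simp
  ring

theorem kernel_B {γ ω : ℝ} (hγ : 0 < γ) (hω : 0 < ω) (hωγ : ω ≤ 2 / 3 * γ)
    {S : ℝ} (hS : 0 ≤ S) :
    ∫ s in (0 : ℝ)..S, |hk γ ω s - clip (Real.exp (-(2 * γ) * s)) (hk γ ω s)| ≤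
      1 / (2 * γ) := by
  set S₀ := Real.pi / ω with hS₀
  set τ := 15 / 8 / γ with hτ
  set F : ℝ → ℝ := fun s => Real.exp (γ * s) * (γ / ω * Real.sin (ω * s) - Real.cos (ω * s))
    with hF
  have hpi : 3.14 < Real.pi := Real.pi_gt_d2
  have hpi2 : Real.pi < 3.15 := Real.pi_lt_d2
  have hτ0 : 0 < τ := by positivity
  have hγS : 4.71 ≤ γ * S₀ := by
    rw [hS₀, ← mul_div_assoc, le_div_iff₀ hω]
    nlinarith
  have hγτ : γ * τ = 15 / 8 := by
    rw [hτ]
    field_simp
  have hτS : τ ≤ S₀ := by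
    have : γ * τ ≤ γ * S₀ := by linarith
    exact le_of_mul_le_mul_left this hγ
  have hωS : ω * S₀ = Real.pi := by
    rw [hS₀]
    field_simp
  have hFd : ∀ t, HasDerivAt F (Real.exp (γ * t) * (Real.sin (ω * t) * (γ ^ 2 / ω + ω))) t := by
    intro t
    refine ((hasDerivAt_exp_mul γ t).mul (((hasDerivAt_sin_mul ω t).const_mul (γ / ω)).sub
      (hasDerivAt_cos_mul ω t))).congr_deriv ?_
    simp only [Pi.sub_apply]
    field_simp
    ring
  have hmono : MonotoneOn F (Set.Icc 0 S₀) := by
    refine monotoneOn_of_deriv_nonneg (convex_Icc 0 S₀)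
      (fun t _ => (hFd t).continuousAt.continuousWithinAt)
      (fun t _ => (hFd t).differentiableAt.differentiableWithinAt) (fun t ht => ?_)
    rw [interior_Icc] at ht
    rw [(hFd t).deriv]
    have h1 : 0 ≤ Real.sin (ω * t) := by
      refine Real.sin_nonneg_of_nonneg_of_le_pi (by nlinarith [ht.1]) ?_
      rw [← hωS]
      exact mul_le_mul_of_nonneg_left ht.2.le hω.le
    positivity
  have hF0 : F 0 = -1 := by simp [hF]
  have hFτ : 1 ≤ F τ := by
    have hx0 : 0 ≤ ω * τ := by positivity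
    have hx1 : ω * τ ≤ Real.pi / 2 := by
      have h1 : ω * τ ≤ 2 / 3 * γ * τ := mul_le_mul_of_nonneg_right hωγ hτ0.le
      have h2 : 2 / 3 * γ * τ = 5 / 4 := by
        rw [mul_assoc, hγτ]
        norm_num
      linarith
    have h3 := Real.mul_le_sin hx0 hx1
    have h4 : γ / ω * (2 / Real.pi * (ω * τ)) = 15 / 4 / Real.pi := by
      have h5 : γ / ω * (2 / Real.pi * (ω * τ)) = 2 * (γ * τ) / Real.pi := by
        field_simp
      rw [h5, hγτ]
      ring
    have h5 : γ / ω * (2 / Real.pi * (ω * τ)) ≤ γ / ω * Real.sin (ω * τ) :=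
      mul_le_mul_of_nonneg_left h3 (by positivity)
    have h6 : 1.19 ≤ 15 / 4 / Real.pi := by
      rw [le_div_iff₀ Real.pi_pos]
      nlinarith
    have h7 : 0.19 ≤ γ / ω * Real.sin (ω * τ) - Real.cos (ω * τ) := by
      have := Real.cos_le_one (ω * τ)
      linarith
    have h8 : 5.6 ≤ Real.exp (γ * τ) := by
      rw [hγτ]
      have h9 := Real.quadratic_le_exp_of_nonneg (show (0 : ℝ) ≤ 15 / 16 by norm_num)
      have h10 : Real.exp (15 / 8) = Real.exp (15 / 16) * Real.exp (15 / 16) := by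
        rw [← Real.exp_add]
        norm_num
      rw [h10]
      norm_num at h9
      nlinarith
    simp only [hF]
    have h11 : (5.6 : ℝ) * 0.19 ≤ Real.exp (γ * τ) *
        (γ / ω * Real.sin (ω * τ) - Real.cos (ω * τ)) :=
      mul_le_mul h8 h7 (by norm_num) (Real.exp_pos _).le
    norm_num at h11
    linarith
  have hFh : ∀ t, hk γ ω t = -(Real.exp (-(2 * γ) * t) * F t) := by
    intro t
    simp only [hF, hk]
    have h1 : Real.exp (-(2 * γ) * t) * Real.exp (γ * t) = Real.exp (-γ * t) := by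
      rw [← Real.exp_add]
      congr 1
      ring
    rw [← mul_assoc, h1]
    ring
  have hgc : Continuous (gk γ ω) :=
    continuous_iff_continuousAt.2 (fun t => (hasDerivAt_gk hω t).continuousAt)
  have hhc : Continuous (hk γ ω) :=
    continuous_iff_continuousAt.2 (fun t => (hasDerivAt_hk hω t).continuousAt)
  set J : ℝ → ℝ := fun s => |hk γ ω s - clip (Real.exp (-(2 * γ) * s)) (hk γ ω s)| with hJ
  have hJc : Continuous J := (hhc.sub (continuous_clip (by fun_prop) hhc)).abs
  have hJi : ∀ a b, IntervalIntegrable J volume a b := fun a b => hJc.intervalIntegrable a b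
  set S' := max S S₀ with hS'
  have hS₀p : 0 < S₀ := by positivity
  have hk0 : ∀ t, 0 < Real.exp (-(2 * γ) * t) := fun t => Real.exp_pos _
  -- the three pieces
  have hd2 : ∀ t, HasDerivAt (fun s => Real.exp (-(2 * γ) * s) / (2 * γ))
      (-Real.exp (-(2 * γ) * t)) t := by
    intro t
    refine ((hasDerivAt_exp_mul (-(2 * γ)) t).div_const (2 * γ)).congr_deriv ?_
    field_simp
  have p1 : ∫ s in (0 : ℝ)..τ, J s ≤
      (1 / (2 * γ) - Real.exp (-(2 * γ) * τ) / (2 * γ)) - gk γ ω τ := by
    have h1 : ∫ s in (0 : ℝ)..τ, J s ≤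
        ∫ s in (0 : ℝ)..τ, (Real.exp (-(2 * γ) * s) - hk γ ω s) := by
      refine intervalIntegral.integral_mono_on hτ0.le (hJi _ _)
        ((by fun_prop : Continuous fun s => Real.exp (-(2 * γ) * s) - hk γ ω s).intervalIntegrable
          _ _) (fun t ht => ?_)
      have h2 : hk γ ω t ≤ Real.exp (-(2 * γ) * t) := by
        rw [hFh t]
        have h3 := hmono ⟨le_rfl, hS₀p.le⟩ ⟨ht.1, le_trans ht.2 hτS⟩ ht.1
        rw [hF0] at h3
        nlinarith [hk0 t]
      exact sub_clip_le (hk0 t).le (by linarith) (by linarith) (by linarith [hk0 t])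
    have h4 := intervalIntegral.integral_eq_sub_of_hasDerivAt
      (f := fun s => -(Real.exp (-(2 * γ) * s) / (2 * γ)) - gk γ ω s)
      (f' := fun s => Real.exp (-(2 * γ) * s) - hk γ ω s) (a := 0) (b := τ)
      (fun t _ => ((hd2 t).neg.sub (hasDerivAt_gk hω t)).congr_deriv (by ring))
      ((by fun_prop : Continuous fun s => Real.exp (-(2 * γ) * s) - hk γ ω s).intervalIntegrable
          _ _)
    rw [h4] at h1
    have h5 : gk γ ω 0 = 0 := by simp [gk]
    rw [h5] at h1
    simp only [mul_zero, Real.exp_zero] at h1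
    linarith
  have p2 : ∫ s in τ..S₀, J s ≤
      (gk γ ω τ - gk γ ω S₀) - (Real.exp (-(2 * γ) * τ) / (2 * γ) -
        Real.exp (-(2 * γ) * S₀) / (2 * γ)) := by
    have h1 : ∫ s in τ..S₀, J s ≤
        ∫ s in τ..S₀, (-hk γ ω s - Real.exp (-(2 * γ) * s)) := by
      refine intervalIntegral.integral_mono_on hτS (hJi _ _)
        ((by fun_prop : Continuous fun s => -hk γ ω s -
          Real.exp (-(2 * γ) * s)).intervalIntegrable _ _) (fun t ht => ?_)
      have h2 : hk γ ω t ≤ -Real.exp (-(2 * γ) * t) := by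
        rw [hFh t]
        have h3 := hmono ⟨hτ0.le, hτS⟩ ⟨le_trans hτ0.le ht.1, ht.2⟩ ht.1
        nlinarith [hk0 t]
      exact sub_clip_le (hk0 t).le (by linarith) (by linarith [hk0 t]) (by linarith)
    have h4 := intervalIntegral.integral_eq_sub_of_hasDerivAt
      (f := fun s => -gk γ ω s + Real.exp (-(2 * γ) * s) / (2 * γ))
      (f' := fun s => -hk γ ω s - Real.exp (-(2 * γ) * s)) (a := τ) (b := S₀)
      (fun t _ => ((hasDerivAt_gk hω t).neg.add (hd2 t)).congr_deriv (by ring))
      ((by fun_prop : Continuous fun s => -hk γ ω s -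
          Real.exp (-(2 * γ) * s)).intervalIntegrable _ _)
    rw [h4] at h1
    linarith
  have hgS : gk γ ω S₀ = 0 := by
    simp [gk, hωS]
  have hSS' : S₀ ≤ S' := le_max_right _ _
  have p3 : ∫ s in S₀..S', J s ≤ 2 / γ * Real.exp (-γ * S₀) := by
    have h1 : ∫ s in S₀..S', J s ≤
        ∫ s in S₀..S', (Real.exp (-γ * s) * (1 + γ * (s - S₀))) := by
      refine intervalIntegral.integral_mono_on hSS' (hJi _ _)
        ((by fun_prop : Continuous fun s => Real.exp (-γ * s) *
          (1 + γ * (s - S₀))).intervalIntegrable _ _) (fun t ht => ?_)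
      have hts : 0 ≤ t - S₀ := by linarith [ht.1]
      have hb : |hk γ ω t| ≤ Real.exp (-γ * t) * (1 + γ * (t - S₀)) := by
        unfold hk
        rw [abs_mul, abs_of_pos (Real.exp_pos _)]
        refine mul_le_mul_of_nonneg_left ?_ (Real.exp_pos _).le
        have h3 : |Real.sin (ω * t)| ≤ ω * (t - S₀) := by
          have h4 : Real.sin (ω * t) = -Real.sin (ω * (t - S₀)) := by
            rw [mul_sub, hωS, Real.sin_sub_pi, neg_neg]
          rw [h4, abs_neg]
          refine le_trans Real.abs_sin_le_abs ?_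
          rw [abs_of_nonneg (mul_nonneg hω.le hts)]
        have h5 : |γ / ω * Real.sin (ω * t)| ≤ γ * (t - S₀) := by
          rw [abs_mul, abs_of_pos (by positivity)]
          have h6 := mul_le_mul_of_nonneg_left h3 (show 0 ≤ γ / ω by positivity)
          have h7 : γ / ω * (ω * (t - S₀)) = γ * (t - S₀) := by
            field_simp
          linarith
        refine le_trans (abs_sub _ _) ?_
        have := Real.abs_cos_le_one (ω * t)
        linarith
      have h8 := abs_le.1 hb
      have h9 : 0 ≤ Real.exp (-γ * t) * (1 + γ * (t - S₀)) := le_trans (abs_nonneg _) hb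
      exact sub_clip_le (hk0 t).le h9 (by linarith [hk0 t, h8.2]) (by linarith [hk0 t, h8.1])
    have h4 := intervalIntegral.integral_eq_sub_of_hasDerivAt
      (f := fun s => -(Real.exp (-γ * s) * ((2 + γ * (s - S₀)) / γ)))
      (f' := fun s => Real.exp (-γ * s) * (1 + γ * (s - S₀))) (a := S₀) (b := S')
      (fun t _ => by
        have h5 : HasDerivAt (fun s : ℝ => (2 + γ * (s - S₀)) / γ) 1 t := by
          have := ((((hasDerivAt_id t).sub_const S₀).const_mul γ).const_add 2).div_const γ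
          refine this.congr_deriv ?_
          field_simp
        refine ((hasDerivAt_exp_mul (-γ) t).mul h5).neg.congr_deriv ?_
        field_simp
        ring)
      ((by fun_prop : Continuous fun s => Real.exp (-γ * s) *
          (1 + γ * (s - S₀))).intervalIntegrable _ _)
    rw [h4] at h1
    have h6 : 0 ≤ Real.exp (-γ * S') * ((2 + γ * (S' - S₀)) / γ) := by
      have : 0 ≤ S' - S₀ := by linarith
      positivity
    have h7 : Real.exp (-γ * S₀) * ((2 + γ * (S₀ - S₀)) / γ) = 2 / γ * Real.exp (-γ * S₀) := by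
      rw [sub_self, mul_zero, add_zero]
      ring
    linarith
  have hsum : ∫ s in (0 : ℝ)..S', J s =
      (∫ s in (0 : ℝ)..τ, J s) + (∫ s in τ..S₀, J s) + ∫ s in S₀..S', J s := by
    rw [intervalIntegral.integral_add_adjacent_intervals (hJi _ _) (hJi _ _),
      intervalIntegral.integral_add_adjacent_intervals (hJi _ _) (hJi _ _)]
  have hle : ∫ s in (0 : ℝ)..S, J s ≤ ∫ s in (0 : ℝ)..S', J s := by
    have h1 := intervalIntegral.integral_add_adjacent_intervals (hJi 0 S) (hJi S S')
    have h2 : 0 ≤ ∫ s in S..S', J s :=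
      intervalIntegral.integral_nonneg (le_max_left _ _) (fun s _ => abs_nonneg _)
    linarith
  -- numbers
  set E := Real.exp (-γ * S₀) with hE
  have hE0 : 0 < E := Real.exp_pos _
  have hE2 : Real.exp (-(2 * γ) * S₀) = E * E := by
    rw [hE, ← Real.exp_add]
    congr 1
    ring
  set K := Real.exp (-(2 * γ) * τ) with hK
  have hKE : 2.1 * E ≤ K := by
    have h1 : K = Real.exp (γ * S₀ - 15 / 4) * E := by
      rw [hK, hE, ← Real.exp_add]
      congr 1
      have : -(2 * γ) * τ = -(2 * (γ * τ)) := by ring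
      rw [this, hγτ]
      ring
    rw [h1]
    refine mul_le_mul_of_nonneg_right ?_ hE0.le
    have h2 := Real.quadratic_le_exp_of_nonneg (show (0 : ℝ) ≤ γ * S₀ - 15 / 4 by linarith)
    nlinarith
  have hE5 : E ≤ 1 / 5 := by
    have h1 : E * Real.exp (γ * S₀) = 1 := by
      rw [hE, ← Real.exp_add]
      simp
    have h2 := Real.add_one_le_exp (γ * S₀)
    nlinarith
  rw [hE2] at p2
  rw [hgS] at p2
  have h20 : (1 / (2 * γ) - K / (2 * γ)) - (K / (2 * γ) - E * E / (2 * γ)) + 2 / γ * E ≤
      1 / (2 * γ) := by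
    have h21 : (1 / (2 * γ) - K / (2 * γ)) - (K / (2 * γ) - E * E / (2 * γ)) + 2 / γ * E =
        1 / (2 * γ) + (E * E + 4 * E - 2 * K) / (2 * γ) := by
      field_simp
      ring
    rw [h21]
    have h22 : (E * E + 4 * E - 2 * K) / (2 * γ) ≤ 0 := by
      refine div_nonpos_of_nonpos_of_nonneg ?_ (by positivity)
      nlinarith
    linarith
  linarith

end Pool.Agent.X188.Osc
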