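import Pool.Agent.X188.Osc.Scalar

set_option autoImplicit false
set_option linter.unusedSectionVars false

/-!
# Lower bound
-/

open MeasureTheory Set Filter

namespace Pool.Agent.X188.Osc

variable {d : ℕ}

/-- the vector with given coordinates -/
noncomputable def vec (x : Fin d → ℝ) : EuclideanSpace ℝ (Fin d) :=
  ∑ i, x i • EuclideanSpace.single i (1 : ℝ)

theorem vec_apply (x : Fin d → ℝ) (j : Fin d) : vec x j = x j := by
  unfold vec
  simp [Finset.sum_apply, Pi.single_apply]

theorem norm_sq_vec (x : Fin d → ℝ) : ‖vec x‖ ^ 2 = ∑ i, x i ^ 2 := by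
  rw [EuclideanSpace.norm_sq_eq]
  simp_rw [vec_apply, Real.norm_eq_abs, sq_abs]

theorem hasDerivAt_vec {x : Fin d → ℝ → ℝ} {x' : Fin d → ℝ} {t : ℝ}
    (h : ∀ i, HasDerivAt (x i) (x' i) t) :
    HasDerivAt (fun s => vec (fun i => x i s)) (vec x') t := by
  unfold vec
  exact HasDerivAt.fun_sum (fun i _ => (h i).smul_const _)

theorem ac_vec {x : Fin d → ℝ → ℝ} {a b : ℝ}
    (h : ∀ i, AbsolutelyContinuousOnInterval (x i) a b) :
    AbsolutelyContinuousOnInterval (fun s => vec (fun i => x i s)) a b := by
  classical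
  unfold vec
  have hc : ∀ z : EuclideanSpace ℝ (Fin d), AbsolutelyContinuousOnInterval (fun _ : ℝ => z) a b :=
    fun z => (contDiff_const (c := z)).contDiffOn.absolutelyContinuousOnInterval
  have key : ∀ s : Finset (Fin d), AbsolutelyContinuousOnInterval
      (fun t => ∑ i ∈ s, x i t • EuclideanSpace.single i (1 : ℝ)) a b := by
    intro s
    induction s using Finset.induction_on with
    | empty => simpa using hc 0
    | insert i s hi ih =>
      have h1 := ((h i).fun_smul (hc (EuclideanSpace.single i (1 : ℝ)))).fun_add ih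
      have e : (fun t => ∑ j ∈ insert i s, x j t • EuclideanSpace.single j (1 : ℝ)) =
          fun t => x i t • EuclideanSpace.single i (1 : ℝ) +
            ∑ j ∈ s, x j t • EuclideanSpace.single j (1 : ℝ) := by
        funext t
        rw [Finset.sum_insert hi]
      rw [e]
      exact h1
  exact key Finset.univ

theorem diag_vec (lam x : Fin d → ℝ) :
    Matrix.toEuclideanLin (Matrix.diagonal lam) (vec x) = vec (fun i => lam i * x i) := by
  ext j
  rw [vec_apply]
  simp [Matrix.toLpLin_apply, Matrix.mulVec_diagonal, vec_apply]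

theorem vec_sub_smul_sub (c : ℝ) (x y z : Fin d → ℝ) :
    vec x - c • vec y - vec z = vec (fun i => x i - c * y i - z i) := by
  ext j
  simp [vec_apply]

/-- Assembling a vector solution from scalar ones. -/
theorem exists_vector {φ : Fin d → ℝ → ℝ} (hφm : ∀ i, Measurable (φ i))
    (hφ : ∀ i t, |φ i t| ≤ 1) {p q lam : Fin d → ℝ} {c : ℝ}
    (hpq : ∀ i, p i + q i = c) (hlam : ∀ i, p i * q i = lam i) :
    ∃ y w : Fin d → ℝ → ℝ, (∀ i, Continuous (y i)) ∧
      (∀ i T, 0 ≤ T → AbsolutelyContinuousOnInterval (y i) 0 T) ∧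
      (∀ i, ∀ᵐ t, HasDerivAt (y i) (φ i t - p i * y i t) t) ∧
      (∀ i t, HasDerivAt (w i) (y i t - q i * w i t) t) ∧
      (∀ i, y i 0 = 0) ∧ (∀ i, w i 0 = 0) ∧
      IsSolution (Matrix.diagonal lam) c (fun t => vec (fun i => φ i t))
        (fun t => vec (fun i => w i t)) (fun t => vec (fun i => y i t - q i * w i t)) := by
  choose y w hyc hyac hyd hwd hy0 hw0 using
    fun i => exists_scalar (hφm i) (hφ i) (p i) (q i)
  refine ⟨y, w, hyc, hyac, hyd, hwd, hy0, hw0, ?_, ?_, ?_, ?_⟩
  · intro t _
    exact (hasDerivAt_vec (fun i => hwd i t)).hasDerivWithinAt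
  · have hwc : ∀ i, Continuous (w i) := fun i =>
      continuous_iff_continuousAt.2 (fun t => (hwd i t).continuousAt)
    unfold vec
    fun_prop
  · intro T hT
    have hwc : ∀ i, Continuous (w i) := fun i =>
      continuous_iff_continuousAt.2 (fun t => (hwd i t).continuousAt)
    refine ac_vec (x := fun i t => y i t - q i * w i t) (fun i => ?_)
    refine (hyac i T hT).fun_sub (AbsolutelyContinuousOnInterval.const_mul (q i) ?_)
    exact ac_of_hasDeriv (w' := fun t => y i t - q i * w i t)
      (fun t _ => (hwd i t).hasDerivWithinAt)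
      (((hyc i).sub (continuous_const.mul (hwc i))).continuousOn) T hT
  · filter_upwards [eventually_countable_forall.2 hyd] with t ht _
    have h1 := hasDerivAt_vec (x := fun i t => y i t - q i * w i t)
      (fun i => (ht i).sub ((hwd i t).const_mul (q i)))
    refine h1.congr_deriv ?_
    rw [diag_vec, vec_sub_smul_sub]
    congr 1
    funext i
    rw [← hpq i, ← hlam i]
    ring

end Pool.Agent.X188.Osc
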