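import Pool.Agent.X188.Osc.Lower

set_option autoImplicit false
set_option linter.unusedSectionVars false

/-!
# Lower bound, part 2
-/

open MeasureTheory Set Filter

namespace Pool.Agent.X188.Osc

variable {d : ℕ}

/-- time remaining until the end of the block of length `T` -/
noncomputable def rem (T t : ℝ) : ℝ := T * ⌈t / T⌉ - t

theorem rem_eq {T t : ℝ} (hT : 0 < T) {n : ℤ} (h1 : (n : ℝ) * T - T < t) (h2 : t ≤ n * T) :
    rem T t = n * T - t := by
  have : ⌈t / T⌉ = n := by
    rw [Int.ceil_eq_iff]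
    constructor
    · rw [lt_div_iff₀ hT]; linarith
    · rw [div_le_iff₀ hT]; exact h2
  unfold rem
  rw [this]
  ring

/-- the coordinates of the forcing -/
noncomputable def phi (c R κ : ℝ) (d : ℕ) (i : Fin d) (t : ℝ) : ℝ :=
  if rem (c * R ^ d) t < c then κ else
    if c * R ^ (i : ℕ) ≤ rem (c * R ^ d) t ∧ rem (c * R ^ d) t < c * R ^ ((i : ℕ) + 1) then -1
    else 0

theorem phi_measurable (c R κ : ℝ) (i : Fin d) : Measurable (phi c R κ d i) := by
  have h : Measurable (rem (c * R ^ d)) := by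
    unfold rem
    have h1 : Measurable fun t : ℝ => ((⌈t / (c * R ^ d)⌉ : ℤ) : ℝ) :=
      (measurable_from_top (f := fun z : ℤ => (z : ℝ))).comp
        (Int.measurable_ceil.comp (measurable_id.div_const _))
    exact (h1.const_mul _).sub measurable_id
  unfold phi
  exact Measurable.ite (measurableSet_lt h measurable_const) measurable_const
    (Measurable.ite ((measurableSet_le measurable_const h).inter
      (measurableSet_lt h measurable_const)) measurable_const measurable_const)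

theorem phi_abs {c R κ : ℝ} (hκ : 0 ≤ κ) (hκ1 : κ ≤ 1) (i : Fin d) (t : ℝ) :
    |phi c R κ d i t| ≤ 1 := by
  unfold phi
  split_ifs
  · rw [abs_of_nonneg hκ]; exact hκ1
  · simp
  · simp

theorem sum_phi_sq {c R κ : ℝ} (hc : 0 < c) (hR : 1 < R) (hκ : (d : ℝ) * κ ^ 2 ≤ 1) (t : ℝ) :
    ∑ i, phi c R κ d i t ^ 2 ≤ 1 := by
  by_cases h : rem (c * R ^ d) t < c
  · have : ∀ i, phi c R κ d i t = κ := fun i => by
      unfold phi
      rw [if_pos h]
    simp_rw [this]
    simpa using hκ
  · by_cases h2 : ∃ i : Fin d, c * R ^ (i : ℕ) ≤ rem (c * R ^ d) t ∧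
        rem (c * R ^ d) t < c * R ^ ((i : ℕ) + 1)
    · obtain ⟨i, hi⟩ := h2
      rw [Finset.sum_eq_single i]
      · unfold phi
        rw [if_neg h, if_pos hi]
        norm_num
      · intro j _ hji
        have hj : ¬ (c * R ^ (j : ℕ) ≤ rem (c * R ^ d) t ∧
            rem (c * R ^ d) t < c * R ^ ((j : ℕ) + 1)) := by
          rintro ⟨h3, h4⟩
          rcases lt_or_gt_of_ne (fun hh : (j : ℕ) = (i : ℕ) => hji (Fin.ext hh)) with h5 | h5
          · have : c * R ^ ((j : ℕ) + 1) ≤ c * R ^ (i : ℕ) :=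
              mul_le_mul_of_nonneg_left (pow_le_pow_right₀ hR.le h5) hc.le
            linarith [hi.1]
          · have : c * R ^ ((i : ℕ) + 1) ≤ c * R ^ (j : ℕ) :=
              mul_le_mul_of_nonneg_left (pow_le_pow_right₀ hR.le h5) hc.le
            linarith [hi.2]
        unfold phi
        rw [if_neg h, if_neg hj]
        norm_num
      · intro hh
        exact absurd (Finset.mem_univ i) hh
    · have : ∀ i, phi c R κ d i t = 0 := fun i => by
        unfold phi
        rw [if_neg h, if_neg (fun hh => h2 ⟨i, hh⟩)]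
      simp_rw [this]
      simp

/-- The estimate for one coordinate at the end of a block. -/
theorem coord_lower {c R κ η δ : ℝ} {i : Fin d} {p q : ℝ} {y w : ℝ → ℝ} (hc1 : 1 ≤ c)
    (hR : 2 ≤ R) (hκ : 0 ≤ κ) (hκ1 : κ ≤ 1) (hη : 0 < η) (hηδ : η = δ / 16)
    (hRδ : 2 * Real.exp (-(η / 2 * (R - 1))) ≤ δ / 4)
    (hcδ : (4 * R ^ d / η + 4) * Real.exp (-(1 / 4 * (c - 0))) ≤ δ / 2)
    (hp : 0 < p) (hq : 0 < q) (hpq : p + q = c) (hqc : c / 2 ≤ q)
    (hlam : p * q = η / R ^ (i : ℕ))
    (hyac : ∀ T, 0 ≤ T → AbsolutelyContinuousOnInterval y 0 T)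
    (hyd : ∀ᵐ t, HasDerivAt y (phi c R κ d i t - p * y t) t)
    (hwd : ∀ t, HasDerivAt w (y t - q * w t) t)
    (hyc : Continuous y) (hy0 : y 0 = 0) (hw0 : w 0 = 0) (n : ℕ) (hn : 1 ≤ n) :
    κ + 1 - δ ≤ c * (y (n * (c * R ^ d)) - q * w (n * (c * R ^ d))) := by
  have hc0 : 0 < c := by linarith
  have hR0 : 0 < R := by linarith
  have hRd : 0 < R ^ d := by positivity
  set T₀ := c * R ^ d with hT₀
  have hT₀p : 0 < T₀ := by positivity
  set X := R ^ (i : ℕ) with hX
  have hX1 : 1 ≤ X := one_le_pow₀ (by linarith)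
  have hXd : X * R ≤ R ^ d := by
    rw [hX, ← pow_succ]
    exact pow_le_pow_right₀ (by linarith) i.2
  have hn1 : (1 : ℝ) ≤ n := by exact_mod_cast hn
  have hnT : T₀ ≤ n * T₀ := by nlinarith
  have hcXR : c * (X * R) ≤ T₀ := mul_le_mul_of_nonneg_left hXd hc0.le
  have hXR : X ≤ X * R := by nlinarith
  have hcX : c * X ≤ c * (X * R) := mul_le_mul_of_nonneg_left hXR hc0.le
  have hcX1 : c ≤ c * X := by nlinarith
  have hrem : ∀ t, n * T₀ - T₀ < t → t ≤ n * T₀ → rem T₀ t = n * T₀ - t := by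
    intro t h1 h2
    have := rem_eq (T := T₀) (t := t) hT₀p (n := (n : ℤ)) (by push_cast; exact h1)
      (by push_cast; exact h2)
    push_cast at this
    exact this
  have hb := block_lower (φ := phi c R κ d i) (y := y) (w := w) (p := p) (q := q) (κ := κ)
    (a := n * T₀ - c * (X * R)) (m := n * T₀ - (c * (X * R) + c * X) / 2)
    (b := n * T₀ - c * X) (s₀ := n * T₀ - c) (T := n * T₀) (D₁ := (c * (X * R) - c * X) / 2)
    hp hq (phi_abs hκ hκ1 i) hκ hκ1 hyac hyd hwd hyc hy0 hw0 (by linarith) (by linarith)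
    (by linarith) (by linarith) (by linarith) (by ring) (by ring)
    (by
      intro t ht
      have h1 := hrem t (by linarith [ht.1]) (by linarith [ht.2])
      unfold phi
      rw [← hT₀, h1, pow_succ, ← hX]
      rw [if_neg (by linarith [ht.2]), if_pos ⟨by linarith [ht.2], by linarith [ht.1]⟩])
    (by
      intro t ht
      have h1 := hrem t (by linarith [ht.1]) (by linarith [ht.2])
      unfold phi
      rw [← hT₀, h1]
      rw [if_pos (by linarith [ht.1])])
  rw [hpq] at hb
  refine le_trans ?_ hb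
  have hpc : p * c ≤ 2 * (η / X) := by
    rw [← hlam]
    nlinarith
  have hpc' : η / X ≤ p * c := by
    rw [← hlam]
    nlinarith
  have hX0 : 0 < X := by linarith
  have hηX : η / X * X = η := div_mul_cancel₀ _ hX0.ne'
  have e1 : p * (n * T₀ - (n * T₀ - c * X)) ≤ 2 * η := by
    have h1 : p * (n * T₀ - (n * T₀ - c * X)) = p * c * X := by ring
    rw [h1]
    have := mul_le_mul_of_nonneg_right hpc hX0.le
    linarith
  have e2 : Real.exp (-(p * ((c * (X * R) - c * X) / 2))) ≤ δ / 8 := by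
    have h1 : η / 2 * (R - 1) ≤ p * ((c * (X * R) - c * X) / 2) := by
      have h2 : p * ((c * (X * R) - c * X) / 2) = p * c * (X * (R - 1) / 2) := by ring
      rw [h2]
      have h3 := mul_le_mul_of_nonneg_right hpc' (show 0 ≤ X * (R - 1) / 2 by
        have : 0 ≤ R - 1 := by linarith
        positivity)
      have h4 : η / X * (X * (R - 1) / 2) = η / 2 * (R - 1) := by
        field_simp
      linarith
    have h5 : Real.exp (-(p * ((c * (X * R) - c * X) / 2))) ≤
        Real.exp (-(η / 2 * (R - 1))) := Real.exp_le_exp.2 (by linarith)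
    linarith
  have hcc : c ≤ c ^ 2 := by nlinarith
  set E := Real.exp (-(1 / 4 * (c - 0))) with hE
  have hE0 : 0 < E := Real.exp_pos _
  have e3 : Real.exp (-(q * ((c * (X * R) - c * X) / 2))) ≤ E := by
    refine Real.exp_le_exp.2 ?_
    have h1 : c * 1 ≤ c * (X * R) - c * X := by
      have h2 : c * (X * R) - c * X = c * (X * (R - 1)) := by ring
      rw [h2]
      refine mul_le_mul_of_nonneg_left ?_ hc0.le
      nlinarith
    have h3 : c / 2 * (c * 1 / 2) ≤ q * ((c * (X * R) - c * X) / 2) := by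
      refine mul_le_mul hqc (by linarith) (by positivity) hq.le
    nlinarith
  have e4 : (2 * (c / p) + 2) * Real.exp (-(c * (n * T₀ - (n * T₀ - c)))) ≤
      (4 * R ^ d / η + 2) * E := by
    have h1 : c / p ≤ c ^ 2 * R ^ d / η := by
      rw [div_le_div_iff₀ hp hη]
      have h2 : η ≤ p * c * X := by
        have := mul_le_mul_of_nonneg_right hpc' hX0.le
        linarith
      have h3 : X ≤ R ^ d := le_trans hXR hXd
      have h4 : p * c * X ≤ p * c * R ^ d := mul_le_mul_of_nonneg_left h3 (by positivity)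
      have h5 : c * η ≤ c * (p * c * R ^ d) := mul_le_mul_of_nonneg_left (by linarith) hc0.le
      linarith
    have h6 : Real.exp (-(c * (n * T₀ - (n * T₀ - c)))) = Real.exp (-(c ^ 2)) := by
      congr 1
      ring
    rw [h6]
    have h7 : Real.exp (-(c ^ 2)) = Real.exp (-(c ^ 2 / 2)) * Real.exp (-(c ^ 2 / 2)) := by
      rw [← Real.exp_add]
      congr 1
      ring
    have h8 : c ^ 2 * Real.exp (-(c ^ 2 / 2)) ≤ 2 := by
      have h9 := Real.add_one_le_exp (c ^ 2 / 2)
      have h10 : c ^ 2 ≤ 2 * Real.exp (c ^ 2 / 2) := by linarith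
      have h11 := mul_le_mul_of_nonneg_right h10 (Real.exp_pos (-(c ^ 2 / 2))).le
      have h12 : 2 * Real.exp (c ^ 2 / 2) * Real.exp (-(c ^ 2 / 2)) = 2 := by
        rw [mul_assoc, ← Real.exp_add]
        simp
      linarith
    have h13 : Real.exp (-(c ^ 2 / 2)) ≤ E := Real.exp_le_exp.2 (by nlinarith)
    have h14 : Real.exp (-(c ^ 2)) ≤ E := Real.exp_le_exp.2 (by nlinarith)
    have h15 : 2 * (c / p) * Real.exp (-(c ^ 2)) ≤ 4 * R ^ d / η * E := by
      have h16 : 2 * (c / p) * Real.exp (-(c ^ 2)) ≤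
          2 * (c ^ 2 * R ^ d / η) * Real.exp (-(c ^ 2)) :=
        mul_le_mul_of_nonneg_right (by linarith) (Real.exp_pos _).le
      have h17 : 2 * (c ^ 2 * R ^ d / η) * Real.exp (-(c ^ 2)) =
          (2 * R ^ d / η) * ((c ^ 2 * Real.exp (-(c ^ 2 / 2))) * Real.exp (-(c ^ 2 / 2))) := by
        rw [h7]
        ring
      have h18 : (c ^ 2 * Real.exp (-(c ^ 2 / 2))) * Real.exp (-(c ^ 2 / 2)) ≤ 2 * E :=
        mul_le_mul h8 h13 (Real.exp_pos _).le (by norm_num)
      have h19 : (2 * R ^ d / η) * ((c ^ 2 * Real.exp (-(c ^ 2 / 2))) *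
          Real.exp (-(c ^ 2 / 2))) ≤ (2 * R ^ d / η) * (2 * E) :=
        mul_le_mul_of_nonneg_left h18 (by positivity)
      have h20 : (2 * R ^ d / η) * (2 * E) = 4 * R ^ d / η * E := by ring
      linarith
    have h21 : (2 * (c / p) + 2) * Real.exp (-(c ^ 2)) =
        2 * (c / p) * Real.exp (-(c ^ 2)) + 2 * Real.exp (-(c ^ 2)) := by ring
    rw [h21]
    have h22 : (4 * R ^ d / η + 2) * E = 4 * R ^ d / η * E + 2 * E := by ring
    rw [h22]
    linarith
  have e5 : (4 * R ^ d / η + 4) * E = (4 * R ^ d / η + 2) * E + 2 * E := by ring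
  linarith

end Pool.Agent.X188.Osc
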