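import Pool.Agent.X188.Osc.Lower2

set_option autoImplicit false
set_option linter.unusedSectionVars false

/-!
# Lower bound, part 3
-/

open MeasureTheory Set Filter

namespace Pool.Agent.X188.Osc

theorem lower_bound {d : ℕ} (hd : 1 ≤ d) {δ : ℝ} (hδ : 0 < δ) :
    ∃ lam : Fin d → ℝ, (∀ i, 0 < lam i) ∧ ∀ᶠ c : ℝ in atTop,
      ∃ f u v : ℝ → EuclideanSpace ℝ (Fin d), Measurable f ∧ (∀ t, ‖f t‖ ≤ 1) ∧
        IsSolution (Matrix.diagonal lam) c f u v ∧
        ∀ N : ℝ, ∃ t, N ≤ t ∧ (1 + Real.sqrt d - δ) / c ≤ ‖v t‖ := by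
  have hd0 : (0 : ℝ) < d := by exact_mod_cast hd
  have hsd : 0 < Real.sqrt d := Real.sqrt_pos.2 hd0
  have hsd2 : Real.sqrt d ^ 2 = d := Real.sq_sqrt hd0.le
  have hd1 : (1 : ℝ) ≤ d := by exact_mod_cast hd
  have hsd1 : 1 ≤ Real.sqrt d := by
    rw [show (1 : ℝ) = Real.sqrt 1 by simp]
    exact Real.sqrt_le_sqrt hd1
  set κ := 1 / Real.sqrt d with hκdef
  have hκ : 0 ≤ κ := by positivity
  have hκ1 : κ ≤ 1 := by
    rw [hκdef, div_le_one hsd]
    exact hsd1
  have hκd : (d : ℝ) * κ ^ 2 ≤ 1 := by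
    rw [hκdef, div_pow, hsd2]
    rw [one_pow, mul_one_div, div_self hd0.ne']
  set δ₁ := δ / Real.sqrt d with hδ₁
  have hδ₁0 : 0 < δ₁ := by positivity
  set η := δ₁ / 16 with hη
  have hη0 : 0 < η := by positivity
  obtain ⟨R, hR⟩ := (((eventually_exp (p := η / 2) (K := 2) (a := 1) (by positivity)
    (show 0 < δ₁ / 4 by positivity))).and (eventually_ge_atTop (2 : ℝ))).exists
  obtain ⟨hRδ, hR2⟩ := hR
  have hR0 : 0 < R := by linarith
  refine ⟨fun i => η / R ^ (i : ℕ), fun i => by positivity, ?_⟩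
  filter_upwards [eventually_exp (p := 1 / 4) (K := 4 * R ^ d / η + 4) (a := 0) (by norm_num)
    (show 0 < δ₁ / 2 by positivity), eventually_ge_atTop (1 : ℝ),
    eventually_ge_atTop (4 * η)] with c hcδ hc1 hcη
  have hc0 : 0 < c := by linarith
  have hlamη : ∀ i : Fin d, η / R ^ (i : ℕ) ≤ η := fun i =>
    div_le_self hη0.le (one_le_pow₀ (by linarith))
  set r : Fin d → ℝ := fun i => Real.sqrt (c ^ 2 - 4 * (η / R ^ (i : ℕ))) with hr
  have hr2 : ∀ i, r i ^ 2 = c ^ 2 - 4 * (η / R ^ (i : ℕ)) := fun i =>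
    Real.sq_sqrt (by
      have := hlamη i
      nlinarith)
  have hr0 : ∀ i, 0 ≤ r i := fun i => Real.sqrt_nonneg _
  have hrc : ∀ i, r i < c := fun i => by
    have h1 := hr2 i
    have h2 : 0 < η / R ^ (i : ℕ) := by positivity
    have h3 := hr0 i
    nlinarith
  have hpq : ∀ i, (c - r i) / 2 + (c + r i) / 2 = c := fun i => by ring
  have hprod : ∀ i, (c - r i) / 2 * ((c + r i) / 2) = η / R ^ (i : ℕ) := fun i => by
    have := hr2 i
    nlinarith
  obtain ⟨y, w, hyc, hyac, hyd, hwd, hy0, hw0, hsol⟩ := exists_vector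
    (φ := phi c R κ d) (fun i => phi_measurable c R κ i) (fun i t => phi_abs hκ hκ1 i t)
    hpq hprod
  refine ⟨_, _, _, ?_, ?_, hsol, ?_⟩
  · unfold vec
    exact Finset.measurable_fun_sum _ (fun i _ => (phi_measurable c R κ i).smul_const _)
  · intro t
    have h1 := norm_sq_vec (fun i => phi c R κ d i t)
    have h2 := sum_phi_sq (d := d) hc0 (show 1 < R by linarith) hκd t
    rw [← h1] at h2
    have h3 := norm_nonneg (vec fun i => phi c R κ d i t)
    by_contra hcon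
    push Not at hcon
    nlinarith
  · intro N
    set n : ℕ := max 1 ⌈N⌉₊ with hn
    have hn1 : 1 ≤ n := le_max_left _ _
    have hnN : N ≤ n := le_trans (Nat.le_ceil N) (by exact_mod_cast le_max_right _ _)
    have hRd : 1 ≤ R ^ d := one_le_pow₀ (by linarith)
    have hT1 : 1 ≤ c * R ^ d := by nlinarith
    have hn0 : (0 : ℝ) ≤ n := Nat.cast_nonneg n
    refine ⟨n * (c * R ^ d), by nlinarith, ?_⟩
    have hcoord : ∀ i, κ + 1 - δ₁ ≤ c * (y i (n * (c * R ^ d)) -
        (c + r i) / 2 * w i (n * (c * R ^ d))) := fun i =>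
      coord_lower (η := η) hc1 hR2 hκ hκ1 hη0 hη hRδ hcδ (by linarith [hrc i])
        (by linarith [hr0 i]) (hpq i) (by linarith [hr0 i]) (hprod i) (hyac i) (hyd i) (hwd i)
        (hyc i) (hy0 i) (hw0 i) n hn1
    have hval : (1 + Real.sqrt d - δ) / c = Real.sqrt d * ((κ + 1 - δ₁) / c) := by
      rw [hκdef, hδ₁]
      field_simp
    rw [hval]
    rcases lt_or_ge (κ + 1 - δ₁) 0 with h | h
    · refine le_trans ?_ (norm_nonneg _)
      have : (κ + 1 - δ₁) / c ≤ 0 := div_nonpos_of_nonpos_of_nonneg h.le hc0.le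
      exact mul_nonpos_of_nonneg_of_nonpos hsd.le this
    · have h1 : (Real.sqrt d * ((κ + 1 - δ₁) / c)) ^ 2 ≤
          ‖vec (fun i => y i (n * (c * R ^ d)) - (c + r i) / 2 * w i (n * (c * R ^ d)))‖ ^ 2 := by
        rw [norm_sq_vec, mul_pow, hsd2]
        have h2 : ∀ i : Fin d, ((κ + 1 - δ₁) / c) ^ 2 ≤
            (y i (n * (c * R ^ d)) - (c + r i) / 2 * w i (n * (c * R ^ d))) ^ 2 := by
          intro i
          refine pow_le_pow_left₀ (by positivity) ?_ 2
          rw [div_le_iff₀ hc0]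
          linarith [hcoord i]
        have h3 := Finset.sum_le_sum (fun i (_ : i ∈ Finset.univ) => h2 i)
        rw [Finset.sum_const, Finset.card_univ, Fintype.card_fin, nsmul_eq_mul] at h3
        exact h3
      exact le_of_sq_le_sq h1 (norm_nonneg _)

end Pool.Agent.X188.Osc
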