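import Pool.Agent.X188.Osc.Vector

set_option autoImplicit false
set_option linter.unusedSectionVars false

/-!
# Construction of scalar solutions and the lower estimate
-/

open MeasureTheory Set Filter

namespace Pool.Agent.X188.Osc

/-- Existence of the two-stage response to a bounded measurable forcing. -/
theorem exists_scalar {φ : ℝ → ℝ} (hφm : Measurable φ) (hφ : ∀ t, |φ t| ≤ 1) (p q : ℝ) :
    ∃ y w : ℝ → ℝ, Continuous y ∧ (∀ T, 0 ≤ T → AbsolutelyContinuousOnInterval y 0 T) ∧
      (∀ᵐ t, HasDerivAt y (φ t - p * y t) t) ∧ (∀ t, HasDerivAt w (y t - q * w t) t) ∧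
      y 0 = 0 ∧ w 0 = 0 := by
  set F : ℝ → ℝ := fun s => Real.exp (p * s) * φ s with hF
  have hFl : LocallyIntegrable F volume := by
    have h1 : LocallyIntegrable (fun s : ℝ => Real.exp (p * s)) volume :=
      (by fun_prop : Continuous fun s : ℝ => Real.exp (p * s)).locallyIntegrable
    refine h1.mono (by fun_prop) (Eventually.of_forall (fun s => ?_))
    simp only [hF, norm_mul, Real.norm_eq_abs]
    have := mul_le_mul_of_nonneg_left (hφ s) (abs_nonneg (Real.exp (p * s)))
    linarith
  have hFi : ∀ a b, IntervalIntegrable F volume a b := fun a b =>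
    intervalIntegrable_iff.mpr <|
      (hFl.integrableOn_isCompact isCompact_uIcc).mono_set uIoc_subset_uIcc
  have hdE : ∀ r t : ℝ, HasDerivAt (fun s => Real.exp (-(r * s))) (-r * Real.exp (-(r * t))) t := by
    intro r t
    have := ((hasDerivAt_id t).const_mul r).neg.exp
    simpa [mul_comm] using this
  set y : ℝ → ℝ := fun t => Real.exp (-(p * t)) * ∫ s in (0 : ℝ)..t, F s with hy
  have hyc : Continuous y :=
    (by fun_prop : Continuous fun t : ℝ => Real.exp (-(p * t))).mul
      (intervalIntegral.continuous_primitive hFi 0)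
  have hyac : ∀ T, 0 ≤ T → AbsolutelyContinuousOnInterval y 0 T := fun T hT =>
    (ac_of_contDiff (f := fun t : ℝ => Real.exp (-(p * t))) (by fun_prop) 0 T).fun_mul
      ((hFi 0 T).absolutelyContinuousOnInterval_intervalIntegral left_mem_uIcc)
  have hyd : ∀ᵐ t, HasDerivAt y (φ t - p * y t) t := by
    filter_upwards [_root_.LocallyIntegrable.ae_hasDerivAt_integral hFl] with t ht
    refine ((hdE p t).mul (ht 0)).congr_deriv ?_
    simp only [hy, hF]
    have h1 : Real.exp (-(p * t)) * (Real.exp (p * t) * φ t) = φ t := by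
      rw [← mul_assoc, ← Real.exp_add]
      simp
    rw [h1]
    ring
  set Gf : ℝ → ℝ := fun s => Real.exp (q * s) * y s with hG
  have hGc : Continuous Gf := (by fun_prop : Continuous fun s : ℝ => Real.exp (q * s)).mul hyc
  set w : ℝ → ℝ := fun t => Real.exp (-(q * t)) * ∫ s in (0 : ℝ)..t, Gf s with hw
  have hwd : ∀ t, HasDerivAt w (y t - q * w t) t := by
    intro t
    have h0 : HasDerivAt (fun t => ∫ s in (0 : ℝ)..t, Gf s) (Gf t) t :=
      intervalIntegral.integral_hasDerivAt_right (hGc.intervalIntegrable 0 t)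
        (hGc.stronglyMeasurableAtFilter _ _) hGc.continuousAt
    refine ((hdE q t).mul h0).congr_deriv ?_
    simp only [hw, hG]
    have h1 : Real.exp (-(q * t)) * (Real.exp (q * t) * y t) = y t := by
      rw [← mul_assoc, ← Real.exp_add]
      simp
    rw [h1]
    ring
  exact ⟨y, w, hyc, hyac, hyd, hwd, by simp [hy], by simp [hw]⟩

/-- The lower estimate at the end of a block. -/
theorem block_lower {φ y w : ℝ → ℝ} {p q κ m b s₀ T D₁ : ℝ} (hp : 0 < p) (hq : 0 < q)
    (hφ : ∀ t, |φ t| ≤ 1) (hκ : 0 ≤ κ) (hκ1 : κ ≤ 1)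
    (hyac : ∀ T, 0 ≤ T → AbsolutelyContinuousOnInterval y 0 T)
    (hyd : ∀ᵐ t, HasDerivAt y (φ t - p * y t) t) (hwd : ∀ t, HasDerivAt w (y t - q * w t) t)
    (hyc : Continuous y) (hy0 : y 0 = 0) (hw0 : w 0 = 0) {a : ℝ} (ha : 0 ≤ a)
    (ham : a ≤ m) (hmb : m ≤ b) (hbs : b ≤ s₀) (hsT : s₀ ≤ T)
    (hD₁ : m - a = D₁) (hD₂ : b - m = D₁)
    (h1 : ∀ t, t ∈ Set.Ioc a b → φ t = -1) (h2 : ∀ t, t ∈ Set.Ioc s₀ T → φ t = κ) :
    κ + 1 - 2 * (Real.exp (-(p * D₁)) + p * (T - b)) - 2 * Real.exp (-(q * D₁)) -
      (2 * ((p + q) / p) + 2) * Real.exp (-((p + q) * (T - s₀))) ≤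
        (p + q) * (y T - q * w T) := by
  have hwc : Continuous w := continuous_iff_continuousAt.2 (fun t => (hwd t).continuousAt)
  have hwac : ∀ T, 0 ≤ T → AbsolutelyContinuousOnInterval w 0 T :=
    ac_of_hasDeriv (w' := fun t => y t - q * w t) (fun t _ => (hwd t).hasDerivWithinAt)
      (by fun_prop)
  have hyabs : ∀ t, 0 ≤ t → |y t| ≤ 1 / p := by
    intro t ht
    have h := abs_bound (y := y) (φ := φ) hp zero_le_one ht (hyac t ht)
      (by filter_upwards [hyd] with s hs _ using hs) (Eventually.of_forall (fun s _ => hφ s))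
    rw [hy0] at h
    simpa using h
  have hwabs : ∀ t, 0 ≤ t → |w t| ≤ 1 / p / q := by
    intro t ht
    have h := abs_bound (y := w) (φ := y) (B := 1 / p) hq (by positivity) ht (hwac t ht)
      (Eventually.of_forall (fun s _ => hwd s))
      (Eventually.of_forall (fun s hs => hyabs s hs.1.le))
    rw [hw0] at h
    simpa using h
  set E1 := Real.exp (-(p * D₁)) with hE1
  set E2 := Real.exp (-(q * D₁)) with hE2
  set E3 := Real.exp (-((p + q) * (T - s₀))) with hE3
  have hE1p : 0 < E1 := Real.exp_pos _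
  have hE2p : 0 < E2 := Real.exp_pos _
  have hE3p : 0 < E3 := Real.exp_pos _
  have hbT : b ≤ T := le_trans hbs hsT
  have hm0 : 0 ≤ m := le_trans ha ham
  have hb0 : 0 ≤ b := le_trans hm0 hmb
  have hip : 0 < 1 / p := by positivity
  -- step 1
  have s1 : ∀ t, m ≤ t → t ≤ b → 1 / p - 2 / p * E1 ≤ -y t := by
    intro t hmt htb
    have hat : a ≤ t := le_trans ham hmt
    have h := lower (y := fun t => -y t) (φ := fun t => -φ t) (m := 1) hp hat
      (ac_sub ha hat le_rfl (hyac t (le_trans ha hat))).fun_neg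
      (by
        filter_upwards [hyd] with s hs _
        exact hs.fun_neg.congr_deriv (by ring))
      (Eventually.of_forall (fun s hs => by
        show 1 ≤ -φ s
        rw [h1 s ⟨hs.1, le_trans hs.2 htb⟩]
        norm_num))
    have h3 : Real.exp (-(p * (t - a))) ≤ E1 := by
      apply Real.exp_le_exp.2
      nlinarith
    have h4 : -(2 / p) ≤ -y a - 1 / p := by
      have := (abs_le.1 (hyabs a ha)).2
      have h5 : 2 / p = 1 / p + 1 / p := by ring
      linarith
    have h5 := mul_le_mul_of_nonneg_right h4 (Real.exp_pos (-(p * (t - a)))).le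
    have h6 : 2 / p * Real.exp (-(p * (t - a))) ≤ 2 / p * E1 :=
      mul_le_mul_of_nonneg_left h3 (by positivity)
    linarith
  set μ := 1 - 2 * (E1 + p * (T - b)) with hμ
  have hTb : 0 ≤ p * (T - b) := mul_nonneg hp.le (by linarith)
  have s1' : ∀ t, m ≤ t → t ≤ T → μ / p ≤ -y t := by
    intro t hmt htT
    have hμp : μ / p = 1 / p - 2 / p * E1 - 2 * (T - b) := by
      rw [hμ]
      field_simp
      ring
    rcases le_total t b with h | h
    · have := s1 t hmt h
      linarith
    · have h' := lower (y := fun t => -y t) (φ := fun t => -φ t) (m := -1) hp h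
        (ac_sub hb0 h le_rfl (hyac t (le_trans hb0 h))).fun_neg
        (by
          filter_upwards [hyd] with s hs _
          exact hs.fun_neg.congr_deriv (by ring))
        (Eventually.of_forall (fun s _ => by
          show -1 ≤ -φ s
          linarith [(abs_le.1 (hφ s)).2]))
      have hb1 := s1 b hmb le_rfl
      set e := Real.exp (-(p * (t - b))) with he
      have he0 : 0 < e := Real.exp_pos _
      have he1 : e ≤ 1 := by
        rw [he, Real.exp_le_one_iff]
        nlinarith
      have he2 : 1 - p * (T - b) ≤ e := by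
        have h7 := Real.add_one_le_exp (-(p * (t - b)))
        have h8 : p * (t - b) ≤ p * (T - b) := mul_le_mul_of_nonneg_left (by linarith) hp.le
        linarith
      have h9 : 2 / p - 2 / p * E1 ≤ -y b - -1 / p := by
        have h5 : 2 / p = 1 / p + 1 / p := by ring
        have h6 : -1 / p = -(1 / p) := by ring
        rw [h6]
        linarith
      have h10 := mul_le_mul_of_nonneg_right h9 he0.le
      have h11 : 2 / p * (1 - p * (T - b) - E1) ≤ (2 / p - 2 / p * E1) * e := by
        have h12 : (2 / p - 2 / p * E1) * e = 2 / p * (e - E1 * e) := by ring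
        rw [h12]
        refine mul_le_mul_of_nonneg_left ?_ (by positivity)
        nlinarith
      have h13 : 2 / p * (1 - p * (T - b) - E1) = 2 / p - 2 / p * E1 - 2 * (T - b) := by
        field_simp
        ring
      have h14 : -1 / p = -(1 / p) := by ring
      have h15 : 2 / p = 1 / p + 1 / p := by ring
      rw [h14] at h' h10
      rw [h13] at h11
      linarith
  -- step 2
  have hμ1 : μ ≤ 1 := by
    rw [hμ]
    linarith
  have s2 : ∀ t, b ≤ t → t ≤ T → μ - 2 * E2 ≤ -(p * q * w t) := by
    intro t hbt htT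
    have hmt : m ≤ t := le_trans hmb hbt
    have h := lower (y := fun t => -w t) (φ := fun t => -y t) (m := μ / p) hq hmt
      (ac_sub hm0 hmt le_rfl (hwac t (le_trans hm0 hmt))).fun_neg
      (Eventually.of_forall (fun s _ => (hwd s).fun_neg.congr_deriv (by ring)))
      (Eventually.of_forall (fun s hs => s1' s hs.1.le (le_trans hs.2 htT)))
    have h3 : Real.exp (-(q * (t - m))) ≤ E2 := by
      apply Real.exp_le_exp.2
      nlinarith
    have h4 : -(2 / (p * q)) ≤ -w m - μ / p / q := by
      have h5 := (abs_le.1 (hwabs m hm0)).2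
      have h6 : μ / p / q ≤ 1 / p / q := by
        gcongr
      have h7 : 2 / (p * q) = 1 / p / q + 1 / p / q := by
        field_simp
        norm_num
      linarith
    have h5 := mul_le_mul_of_nonneg_right h4 (Real.exp_pos (-(q * (t - m)))).le
    have h6 : 2 / (p * q) * Real.exp (-(q * (t - m))) ≤ 2 / (p * q) * E2 :=
      mul_le_mul_of_nonneg_left h3 (by positivity)
    have h7 : μ / p / q - 2 / (p * q) * E2 ≤ -w t := by linarith
    have h8 := mul_le_mul_of_nonneg_left h7 (mul_pos hp hq).le
    have h9 : p * q * (μ / p / q - 2 / (p * q) * E2) = μ - 2 * E2 := by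
      field_simp
    rw [h9] at h8
    linarith
  -- step 3
  have hc : 0 < p + q := by linarith
  have hs0 : 0 ≤ s₀ := le_trans hb0 hbs
  have hT0 : 0 ≤ T := le_trans hs0 hsT
  have h := lower (y := fun t => y t - q * w t) (φ := fun t => φ t - p * q * w t)
    (m := κ + (μ - 2 * E2)) hc hsT
    (ac_sub hs0 hsT le_rfl ((hyac T hT0).fun_sub ((hwac T hT0).const_mul q)))
    (by
      filter_upwards [hyd] with s hs _
      refine (hs.sub ((hwd s).const_mul q)).congr_deriv ?_
      ring)
    (Eventually.of_forall (fun s hs => by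
      have := s2 s (le_trans hbs hs.1.le) hs.2
      show κ + (μ - 2 * E2) ≤ φ s - p * q * w s
      rw [h2 s hs]
      linarith))
  have hv0 : -(2 / p) ≤ y s₀ - q * w s₀ := by
    have h5 := (abs_le.1 (hyabs s₀ hs0)).1
    have h6 := (abs_le.1 (hwabs s₀ hs0)).2
    have h7 : q * w s₀ ≤ q * (1 / p / q) := mul_le_mul_of_nonneg_left h6 hq.le
    have h8 : q * (1 / p / q) = 1 / p := by field_simp
    have h9 : 2 / p = 1 / p + 1 / p := by ring
    linarith
  set ν := κ + (μ - 2 * E2) with hν
  have hν2 : ν ≤ 2 := by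
    rw [hν]
    linarith
  have h10 : (p + q) * (ν / (p + q) + (y s₀ - q * w s₀ - ν / (p + q)) * E3) =
      ν + ((p + q) * (y s₀ - q * w s₀) - ν) * E3 := by
    field_simp
  have h11 := mul_le_mul_of_nonneg_left h hc.le
  rw [h10] at h11
  have h12 : -(2 * ((p + q) / p)) - 2 ≤ (p + q) * (y s₀ - q * w s₀) - ν := by
    have h13 := mul_le_mul_of_nonneg_left hv0 hc.le
    have h14 : (p + q) * -(2 / p) = -(2 * ((p + q) / p)) := by ring
    linarith
  have h15 := mul_le_mul_of_nonneg_right h12 hE3p.le
  have h16 : ν = κ + 1 - 2 * (E1 + p * (T - b)) - 2 * E2 := by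
    rw [hν, hμ]
    ring
  linarith

end Pool.Agent.X188.Osc
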