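import Pool.Agent.X188.Osc.Const

set_option autoImplicit false
set_option linter.unusedSectionVars false

/-!
# Time scaling
-/

open MeasureTheory Set Filter

namespace Pool.Agent.X188.Osc

variable {d : ℕ}

theorem ac_comp_mul {v : ℝ → EuclideanSpace ℝ (Fin d)} {s T : ℝ} (hs : 0 < s) (hT : 0 ≤ T)
    (hv : AbsolutelyContinuousOnInterval v 0 (s * T)) :
    AbsolutelyContinuousOnInterval (fun t => v (s * t)) 0 T := by
  rw [absolutelyContinuousOnInterval_iff] at hv ⊢
  intro ε hε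
  obtain ⟨δ, hδ, h⟩ := hv ε hε
  refine ⟨δ / s, by positivity, fun E hE hsum => ?_⟩
  have hsT : 0 ≤ s * T := by positivity
  refine h (E.1, fun i => (s * (E.2 i).1, s * (E.2 i).2)) ?_ ?_
  · obtain ⟨h1, h2⟩ := hE
    refine ⟨fun i hi => ?_, ?_⟩
    · have h3 := h1 i hi
      rw [uIcc_of_le hT] at h3
      rw [uIcc_of_le hsT]
      exact ⟨⟨mul_nonneg hs.le h3.1.1, mul_le_mul_of_nonneg_left h3.1.2 hs.le⟩,
        ⟨mul_nonneg hs.le h3.2.1, mul_le_mul_of_nonneg_left h3.2.2 hs.le⟩⟩
    · intro i hi j hj hij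
      have h3 := h2 hi hj hij
      rw [Function.onFun, Set.disjoint_left] at h3 ⊢
      intro z hz hz'
      have key : ∀ x y : ℝ, z ∈ Set.uIoc (s * x) (s * y) → z / s ∈ Set.uIoc x y := by
        intro x y hzz
        rw [Set.mem_uIoc] at hzz ⊢
        rcases hzz with h4 | h4
        · left
          exact ⟨by rw [lt_div_iff₀ hs]; linarith [h4.1], by rw [div_le_iff₀ hs]; linarith [h4.2]⟩
        · right
          exact ⟨by rw [lt_div_iff₀ hs]; linarith [h4.1], by rw [div_le_iff₀ hs]; linarith [h4.2]⟩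
      exact h3 (key _ _ hz) (key _ _ hz')
  · have h3 : ∑ i ∈ Finset.range E.1, dist (s * (E.2 i).1) (s * (E.2 i).2) =
        s * ∑ i ∈ Finset.range E.1, dist (E.2 i).1 (E.2 i).2 := by
      rw [Finset.mul_sum]
      refine Finset.sum_congr rfl (fun i _ => ?_)
      rw [Real.dist_eq, Real.dist_eq, ← mul_sub, abs_mul, abs_of_pos hs]
    show ∑ i ∈ Finset.range E.1, dist (s * (E.2 i).1) (s * (E.2 i).2) < δ
    rw [h3]
    rw [lt_div_iff₀ hs] at hsum
    linarith

theorem ae_comp_mul {P : ℝ → Prop} {s : ℝ} (hs : 0 < s) (h : ∀ᵐ t, P t) : ∀ᵐ t, P (s * t) := by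
  have hq : Measure.QuasiMeasurePreserving (fun t : ℝ => s * t) volume volume :=
    ⟨measurable_const_mul s, by
      rw [Real.map_volume_mul_left hs.ne']
      exact Measure.smul_absolutelyContinuous⟩
  exact hq.ae h

theorem IsSolution.scale {A : Matrix (Fin d) (Fin d) ℝ} {c s : ℝ} (hs : 0 < s)
    {f u v : ℝ → EuclideanSpace ℝ (Fin d)} (h : IsSolution A c f u v) :
    IsSolution (s ^ 2 • A) (s * c) (fun t => s ^ 2 • f (s * t)) (fun t => u (s * t))
      (fun t => s • v (s * t)) := by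
  have hd : ∀ t : ℝ, HasDerivAt (fun t => s * t) s t := fun t => by
    simpa using (hasDerivAt_id t).const_mul s
  refine ⟨fun t ht => ?_, ?_, fun T hT => ?_, ?_⟩
  · have h1 := (h.hasDeriv (s * t) (mul_nonneg hs.le ht)).scomp t (hd t).hasDerivWithinAt
      (s := Set.Ici 0) (fun x hx => mul_nonneg hs.le hx)
    exact h1
  · have h1 : ContinuousOn (fun t : ℝ => v (s * t)) (Set.Ici 0) :=
      h.cont.comp (by fun_prop) (fun x hx => mul_nonneg hs.le hx)
    exact h1.const_smul s
  · exact (ac_comp_mul hs hT (h.absCont (s * T) (mul_nonneg hs.le hT))).const_smul s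
  · filter_upwards [ae_comp_mul hs h.eqn] with t ht h0
    have h1 := ((ht (mul_pos hs h0)).scomp t (hd t)).const_smul s
    refine h1.congr_deriv ?_
    rw [map_smul, LinearMap.smul_apply]
    module

/-- Lower bound for a fixed damping. -/
theorem admissible_lower_fixed (hd : 1 ≤ d) {δ : ℝ} (hδ : 0 < δ) {c : ℝ} (hc : 0 < c) :
    ∃ A : Matrix (Fin d) (Fin d) ℝ, A.PosDef ∧ ∀ K, IsAdmissible A c K →
      (1 + Real.sqrt d - δ) / c ≤ K := by
  obtain ⟨lam, hlam, h⟩ := lower_bound hd hδ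
  obtain ⟨c', ⟨f, u, v, hfm, hf1, hs, hN⟩, hc'⟩ := (h.and (eventually_gt_atTop (0 : ℝ))).exists
  set s := c / c' with hsdef
  have hs0 : 0 < s := by positivity
  have hsc : s * c' = c := by
    rw [hsdef]
    field_simp
  have hsol := hs.scale hs0
  rw [hsc] at hsol
  refine ⟨s ^ 2 • Matrix.diagonal lam, (Matrix.PosDef.diagonal hlam).smul (by positivity),
    fun K hK => ?_⟩
  have hb : ∀ t, ‖s ^ 2 • f (s * t)‖ ≤ s ^ 2 := by
    intro t
    rw [norm_smul, Real.norm_eq_abs, abs_of_pos (by positivity)]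
    have := mul_le_mul_of_nonneg_left (hf1 (s * t)) (show 0 ≤ s ^ 2 by positivity)
    linarith
  have hB : EssBddBy (fun t => s ^ 2 • f (s * t)) (s ^ 2) :=
    ⟨by positivity, 0, Eventually.of_forall (fun t _ => hb t)⟩
  have hess : essLimsup (fun t => s ^ 2 • f (s * t)) ≤ s ^ 2 := csInf_le (bddBelow_ess _) hB
  have hmeas : Measurable (fun t => s ^ 2 • f (s * t)) :=
    (hfm.comp (measurable_const_mul s)).const_smul (s ^ 2)
  have hloc : LocallyIntegrableOn (fun t => s ^ 2 • f (s * t)) (Set.Ici 0) := by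
    have h1 : LocallyIntegrable (fun _ : ℝ => s ^ 2) volume := locallyIntegrable_const _
    refine (h1.mono hmeas.aestronglyMeasurable
      (Eventually.of_forall (fun t => ?_))).locallyIntegrableOn _
    refine le_trans (hb t) ?_
    rw [Real.norm_eq_abs]
    exact le_abs_self _
  refine le_of_forall_pos_le_add (fun ε hε => ?_)
  obtain ⟨N, hN'⟩ := eventually_atTop.1 (hK.2 _ _ _ hloc ⟨_, hB⟩ hsol (ε * s ^ 2) (by positivity))
  obtain ⟨t, ht, hv⟩ := hN (s * N)
  have h2 := hN' (t / s) (by rw [le_div_iff₀ hs0]; linarith)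
  have h3 : s * (t / s) = t := by field_simp
  simp only [h3] at h2
  rw [norm_smul, Real.norm_eq_abs, abs_of_pos hs0] at h2
  have h4 : K * essLimsup (fun t => s ^ 2 • f (s * t)) ≤ K * s ^ 2 :=
    mul_le_mul_of_nonneg_left hess hK.1
  have h5 : s * ((1 + Real.sqrt d - δ) / c') ≤ (K + ε) * s ^ 2 := by
    have := mul_le_mul_of_nonneg_left hv hs0.le
    linarith
  have h6 : s * ((1 + Real.sqrt d - δ) / c') = ((1 + Real.sqrt d - δ) / c) * s ^ 2 := by
    rw [← hsc]
    field_simp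
  rw [h6] at h5
  exact le_of_mul_le_mul_right h5 (by positivity)

end Pool.Agent.X188.Osc
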