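import Pool.Agent.X188.Osc.Scale
import Pool.Agent.X188.Osc.GeneralVec

set_option autoImplicit false
set_option linter.unusedSectionVars false

/-!
# The sharp constant
-/

open MeasureTheory Set Filter

namespace Pool.Agent.X188.Osc

variable {d : ℕ}

/-- The infimum defining `K(A, c)` is attained. -/
theorem isLeast_bestConst {A : Matrix (Fin d) (Fin d) ℝ} (hA : A.PosDef) {c : ℝ} (hc : 0 < c) :
    IsLeast {K | IsAdmissible A c K} (bestConst A c) := by
  refine ⟨⟨bestConst_nonneg A c, fun f u v hf hB hs ε hε => ?_⟩,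
    fun K hK => csInf_le (bddBelow_adm A c) hK⟩
  have hess : 0 ≤ essLimsup f := Real.sInf_nonneg (fun _ h => h.1)
  obtain ⟨K, hK, hlt⟩ := exists_lt_of_csInf_lt (s := {K | IsAdmissible A c K})
    ⟨_, admissible_general hA hc⟩
    (show bestConst A c < bestConst A c + ε / (2 * (essLimsup f + 1)) by
      have : 0 < ε / (2 * (essLimsup f + 1)) := by positivity
      linarith)
  filter_upwards [hK.2 f u v hf hB hs (ε / 2) (by positivity)] with t ht
  have h1 : K * essLimsup f ≤ (bestConst A c + ε / (2 * (essLimsup f + 1))) * essLimsup f :=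
    mul_le_mul_of_nonneg_right hlt.le hess
  have h2 : ε / (2 * (essLimsup f + 1)) * essLimsup f ≤ ε / 2 := by
    have h3 : ε / (2 * (essLimsup f + 1)) * essLimsup f =
        (essLimsup f / (essLimsup f + 1)) * (ε / 2) := by
      field_simp
    rw [h3]
    have h4 : essLimsup f / (essLimsup f + 1) ≤ 1 := by
      rw [div_le_one (by positivity)]
      linarith
    have h5 : 0 ≤ ε / 2 := by positivity
    nlinarith
  linarith

/-- `M_d = 1 + √d`. -/
theorem sharp_constant (hd : 1 ≤ d) {c : ℝ} (hc : 0 < c) :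
    IsLUB {x : ℝ | ∃ A : Matrix (Fin d) (Fin d) ℝ, A.PosDef ∧ x = c * bestConst A c}
      (1 + Real.sqrt d) := by
  constructor
  · rintro x ⟨A, hA, rfl⟩
    have h1 : bestConst A c ≤ (1 + Real.sqrt d) / c :=
      csInf_le (bddBelow_adm A c) (admissible_general hA hc)
    have h2 := mul_le_mul_of_nonneg_left h1 hc.le
    rwa [mul_div_cancel₀ _ hc.ne'] at h2
  · intro z hz
    refine le_of_forall_pos_le_add (fun δ hδ => ?_)
    obtain ⟨A, hA, h⟩ := admissible_lower_fixed hd hδ hc
    have h2 : (1 + Real.sqrt d - δ) / c ≤ bestConst A c := h _ (isLeast_bestConst hA hc).1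
    rw [div_le_iff₀ hc] at h2
    have h3 := hz ⟨A, hA, rfl⟩
    linarith

end Pool.Agent.X188.Osc
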