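import Pool.Agent.X188.Osc.FirstOrder

set_option autoImplicit false
set_option linter.unusedSectionVars false

/-!
# Upper bound for overdamped systems
-/

open MeasureTheory Set Filter
open scoped RealInnerProductSpace

namespace Pool.Agent.X188.Osc

variable {d : ℕ}

/-- `u` is a solution of `u'' + c u' + A u = f` on `[0, ∞)` with derivative `v`: `u` is `C¹`, its
derivative `v` is locally absolutely continuous, and the equation holds almost everywhere. -/
structure IsSolution (A : Matrix (Fin d) (Fin d) ℝ) (c : ℝ)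
    (f u v : ℝ → EuclideanSpace ℝ (Fin d)) : Prop where
  hasDeriv : ∀ t, 0 ≤ t → HasDerivWithinAt u (v t) (Set.Ici 0) t
  cont : ContinuousOn v (Set.Ici 0)
  absCont : ∀ T, 0 ≤ T → AbsolutelyContinuousOnInterval v 0 T
  eqn : ∀ᵐ t, 0 < t → HasDerivAt v (f t - c • v t - Matrix.toEuclideanLin A (u t)) t

theorem ac_inner {v : ℝ → EuclideanSpace ℝ (Fin d)} {a b : ℝ}
    (hv : AbsolutelyContinuousOnInterval v a b) (e : EuclideanSpace ℝ (Fin d)) :
    AbsolutelyContinuousOnInterval (fun t => ⟪e, v t⟫) a b := by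
  rw [absolutelyContinuousOnInterval_iff] at hv ⊢
  intro ε hε
  obtain ⟨δ, hδ, h⟩ := hv (ε / (‖e‖ + 1)) (by positivity)
  refine ⟨δ, hδ, fun E hE hs => ?_⟩
  have h1 := h E hE hs
  have h2 : ∑ i ∈ Finset.range E.1, dist (⟪e, v (E.2 i).1⟫) (⟪e, v (E.2 i).2⟫) ≤
      (‖e‖ + 1) * ∑ i ∈ Finset.range E.1, dist (v (E.2 i).1) (v (E.2 i).2) := by
    rw [Finset.mul_sum]
    refine Finset.sum_le_sum (fun i _ => ?_)
    rw [Real.dist_eq, ← inner_sub_right, dist_eq_norm]
    refine le_trans (abs_real_inner_le_norm _ _) ?_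
    exact mul_le_mul_of_nonneg_right (by linarith) (norm_nonneg _)
  have h3 : (‖e‖ + 1) * ∑ i ∈ Finset.range E.1, dist (v (E.2 i).1) (v (E.2 i).2) < ε := by
    have := mul_lt_mul_of_pos_left h1 (show 0 < ‖e‖ + 1 by positivity)
    rwa [mul_div_cancel₀ _ (show ‖e‖ + 1 ≠ 0 by positivity)] at this
  linarith

theorem ac_sub {y : ℝ → ℝ} {T a b : ℝ} (h0 : 0 ≤ a) (hab : a ≤ b) (hbT : b ≤ T)
    (hy : AbsolutelyContinuousOnInterval y 0 T) : AbsolutelyContinuousOnInterval y a b := by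
  refine hy.mono ?_
  rw [uIcc_of_le hab, uIcc_of_le (by linarith)]
  exact Icc_subset_Icc h0 hbT

/-- decay of the homogeneous part -/
theorem eventually_exp {p K ε a : ℝ} (hp : 0 < p) (hε : 0 < ε) :
    ∀ᶠ t in atTop, K * Real.exp (-(p * (t - a))) ≤ ε := by
  have h1 : Tendsto (fun t : ℝ => K * Real.exp (-(p * (t - a)))) atTop (nhds (K * 0)) := by
    refine Tendsto.const_mul K (Real.tendsto_exp_neg_atTop_nhds_zero.comp ?_)
    exact Tendsto.const_mul_atTop hp (tendsto_atTop_add_const_right _ (-a) tendsto_id)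
  rw [mul_zero] at h1
  filter_upwards [h1.eventually (gt_mem_nhds hε)] with t ht
  exact ht.le

/-- Asymptotic bound for a first order equation. -/
theorem eventually_bound {y φ : ℝ → ℝ} {p B T₀ : ℝ} (hp : 0 < p) (hB : 0 ≤ B) (hT : 0 ≤ T₀)
    (hy : ∀ T, 0 ≤ T → AbsolutelyContinuousOnInterval y 0 T)
    (hd : ∀ᵐ t, 0 < t → HasDerivAt y (φ t - p * y t) t)
    (hφ : ∀ᵐ t, T₀ < t → |φ t| ≤ B) {ε : ℝ} (hε : 0 < ε) :
    ∀ᶠ t in atTop, |y t| ≤ B / p + ε := by
  filter_upwards [eventually_exp (K := |y T₀|) (a := T₀) hp hε, eventually_ge_atTop T₀] with t ht hT₀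
  have h := abs_bound hp hB hT₀ (ac_sub hT hT₀ le_rfl (hy t (by linarith))) (by
    filter_upwards [hd] with s hs hm
    exact hs (lt_of_le_of_lt hT hm.1)) (by
    filter_upwards [hφ] with s hs hm
    exact hs hm.1)
  linarith

theorem ac_of_hasDeriv {w w' : ℝ → ℝ}
    (hd : ∀ t, 0 ≤ t → HasDerivWithinAt w (w' t) (Set.Ici 0) t)
    (hc : ContinuousOn w' (Set.Ici 0)) (T : ℝ) (hT : 0 ≤ T) :
    AbsolutelyContinuousOnInterval w 0 T := by
  have h1 : ∃ C, ∀ x ∈ Set.Icc (0 : ℝ) T, ‖w' x‖ ≤ C :=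
    isCompact_Icc.exists_bound_of_continuousOn (hc.mono (fun x hx => hx.1))
  obtain ⟨C, hC⟩ := h1
  have h2 : LipschitzOnWith (Real.toNNReal C) w (Set.uIcc 0 T) := by
    rw [uIcc_of_le hT]
    refine Convex.lipschitzOnWith_of_nnnorm_hasDerivWithin_le (f' := w') (convex_Icc 0 T)
      (fun x hx => (hd x hx.1).mono (fun z hz => hz.1)) (fun x hx => ?_)
    rw [← NNReal.coe_le_coe, coe_nnnorm]
    exact le_trans (hC x hx) (Real.le_coe_toNNReal C)
  exact h2.absolutelyContinuousOnInterval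

/-- An overdamped scalar oscillator: `λ |w|` is asymptotically at most the forcing. -/
theorem scalar_bound {w v f : ℝ → ℝ} {p q B T₀ : ℝ} (hp : 0 < p) (hq : 0 < q) (hB : 0 ≤ B)
    (hT : 0 ≤ T₀)
    (hw : ∀ t, 0 ≤ t → HasDerivWithinAt w (v t) (Set.Ici 0) t)
    (hc : ContinuousOn v (Set.Ici 0))
    (hv : ∀ T, 0 ≤ T → AbsolutelyContinuousOnInterval v 0 T)
    (hd : ∀ᵐ t, 0 < t → HasDerivAt v (f t - (p + q) * v t - p * q * w t) t)
    (hf : ∀ᵐ t, T₀ < t → |f t| ≤ B) {ε : ℝ} (hε : 0 < ε) :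
    ∀ᶠ t in atTop, p * q * |w t| ≤ B + ε := by
  have hwac := ac_of_hasDeriv hw hc
  have hwd : ∀ t, 0 < t → HasDerivAt w (v t) t := fun t ht =>
    (hw t ht.le).hasDerivAt (Ici_mem_nhds ht)
  have hy : ∀ T, 0 ≤ T → AbsolutelyContinuousOnInterval (fun t => v t + q * w t) 0 T :=
    fun T hT => (hv T hT).fun_add ((hwac T hT).const_mul q)
  have hyd : ∀ᵐ t, 0 < t → HasDerivAt (fun t => v t + q * w t)
      (f t - p * (v t + q * w t)) t := by
    filter_upwards [hd] with t ht h0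
    refine ((ht h0).add ((hwd t h0).const_mul q)).congr_deriv ?_
    ring
  have h1 := eventually_bound (ε := ε / (2 * p)) hp hB hT hy hyd hf (by positivity)
  obtain ⟨T₁, hT₁⟩ := eventually_atTop.1 h1
  have h2 := eventually_bound (y := w) (φ := fun t => v t + q * w t) (p := q)
    (B := B / p + ε / (2 * p)) (T₀ := max T₁ 0) (ε := ε / (2 * (p * q))) hq (by positivity)
    (le_max_right _ _) hwac (Eventually.of_forall (fun t ht =>
      (hwd t ht).congr_deriv (by ring)))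
    (Eventually.of_forall (fun t ht => hT₁ t (le_trans (le_max_left _ _) ht.le))) (by positivity)
  filter_upwards [h2] with t ht
  have h3 : p * q * |w t| ≤ p * q * ((B / p + ε / (2 * p)) / q + ε / (2 * (p * q))) :=
    mul_le_mul_of_nonneg_left ht (by positivity)
  have h4 : p * q * ((B / p + ε / (2 * p)) / q + ε / (2 * (p * q))) = B + ε := by
    field_simp
    ring
  linarith

end Pool.Agent.X188.Osc
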