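import Pool.Agent.X188.Osc.Upper

set_option autoImplicit false
set_option linter.unusedSectionVars false

/-!
# Upper bound for overdamped systems, the vector case
-/

open MeasureTheory Set Filter
open scoped RealInnerProductSpace

namespace Pool.Agent.X188.Osc

variable {d : ℕ}

theorem inner_eigen {A : Matrix (Fin d) (Fin d) ℝ} (hA : A.IsHermitian) (i : Fin d)
    (x : EuclideanSpace ℝ (Fin d)) :
    ⟪hA.eigenvectorBasis i, Matrix.toEuclideanLin A x⟫ =
      hA.eigenvalues i * ⟪hA.eigenvectorBasis i, x⟫ := by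
  have h1 := (Matrix.isSymmetric_toEuclideanLin_iff.mpr hA) (hA.eigenvectorBasis i) x
  rw [← h1]
  have h2 : Matrix.toEuclideanLin A (hA.eigenvectorBasis i) =
      hA.eigenvalues i • hA.eigenvectorBasis i := by
    have h3 := hA.mulVec_eigenvectorBasis i
    ext j
    have h4 := congrFun h3 j
    simpa [Matrix.toLpLin_apply] using h4
  rw [h2, real_inner_smul_left]

theorem hasDerivAt_inner_const {v : ℝ → EuclideanSpace ℝ (Fin d)}
    {v' : EuclideanSpace ℝ (Fin d)} {t : ℝ} (h : HasDerivAt v v' t)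
    (e : EuclideanSpace ℝ (Fin d)) : HasDerivAt (fun s => ⟪e, v s⟫) ⟪e, v'⟫ t :=
  ((innerSL ℝ e).hasFDerivAt (x := v t)).comp_hasDerivAt t h

theorem hasDerivWithinAt_inner_const {v : ℝ → EuclideanSpace ℝ (Fin d)}
    {v' : EuclideanSpace ℝ (Fin d)} {t : ℝ} {s : Set ℝ} (h : HasDerivWithinAt v v' s t)
    (e : EuclideanSpace ℝ (Fin d)) : HasDerivWithinAt (fun s => ⟪e, v s⟫) ⟪e, v'⟫ s t :=
  ((innerSL ℝ e).hasFDerivAt (x := v t)).comp_hasDerivWithinAt t h

/-- The upper bound in the overdamped regime. -/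
theorem upper_bound {A : Matrix (Fin d) (Fin d) ℝ} (hA : A.PosDef) {c : ℝ} (hc : 0 < c)
    (hover : ∀ i, 4 * hA.isHermitian.eigenvalues i ≤ c ^ 2)
    {f u v : ℝ → EuclideanSpace ℝ (Fin d)} (hs : IsSolution A c f u v) {B T₀ : ℝ} (hB : 0 ≤ B)
    (hT₀ : 0 ≤ T₀) (hf : ∀ᵐ t, T₀ < t → ‖f t‖ ≤ B) {ε : ℝ} (hε : 0 < ε) :
    ∀ᶠ t in atTop, ‖v t‖ ≤ (1 + Real.sqrt d) / c * B + ε := by
  set b := hA.isHermitian.eigenvectorBasis with hb
  set lam := hA.isHermitian.eigenvalues with hlam
  have hlp : ∀ i, 0 < lam i := fun i => hA.eigenvalues_pos i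
  set ε' := c * ε / (2 * (Real.sqrt d + 1)) with hε'
  have hsd : 0 ≤ Real.sqrt d := Real.sqrt_nonneg _
  have hε'0 : 0 < ε' := by positivity
  have hcomp : ∀ i, ∀ᶠ t in atTop, lam i * |⟪b i, u t⟫| ≤ B + ε' := by
    intro i
    set r := Real.sqrt (c ^ 2 - 4 * lam i) with hr
    have hr2 : r ^ 2 = c ^ 2 - 4 * lam i := Real.sq_sqrt (by linarith [hover i])
    have hr0 : 0 ≤ r := Real.sqrt_nonneg _
    have hrc : r < c := by
      have := hlp i
      nlinarith
    have hpq : (c - r) / 2 * ((c + r) / 2) = lam i := by nlinarith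
    have h := scalar_bound (w := fun t => ⟪b i, u t⟫) (v := fun t => ⟪b i, v t⟫)
      (f := fun t => ⟪b i, f t⟫) (p := (c - r) / 2) (q := (c + r) / 2) (B := B) (T₀ := T₀)
      (by linarith) (by linarith) hB hT₀
      (fun t ht => hasDerivWithinAt_inner_const (hs.hasDeriv t ht) (b i))
      (by
        have := hs.cont
        fun_prop)
      (fun T hT => ac_inner (hs.absCont T hT) (b i))
      (by
        filter_upwards [hs.eqn] with t ht h0
        refine (hasDerivAt_inner_const (ht h0) (b i)).congr_deriv ?_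
        rw [inner_sub_right, inner_sub_right, real_inner_smul_right, inner_eigen, ← hb, ← hlam,
          hpq]
        ring)
      (by
        filter_upwards [hf] with t ht h0
        refine le_trans (abs_real_inner_le_norm _ _) ?_
        have : ‖b i‖ = 1 := b.orthonormal.1 i
        rw [this, one_mul]
        exact ht h0)
      hε'0
    rw [hpq] at h
    exact h
  have hAu : ∀ᶠ t in atTop, ‖Matrix.toEuclideanLin A (u t)‖ ≤ Real.sqrt d * (B + ε') := by
    filter_upwards [eventually_all.2 hcomp] with t ht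
    have h1 : ‖Matrix.toEuclideanLin A (u t)‖ ^ 2 ≤ (Real.sqrt d * (B + ε')) ^ 2 := by
      rw [← b.sum_sq_norm_inner_right]
      have h2 : ∀ i, ‖⟪b i, Matrix.toEuclideanLin A (u t)⟫‖ ^ 2 ≤ (B + ε') ^ 2 := by
        intro i
        rw [inner_eigen, ← hb, ← hlam, norm_mul, Real.norm_eq_abs, Real.norm_eq_abs,
          abs_of_pos (hlp i)]
        exact pow_le_pow_left₀ (mul_nonneg (hlp i).le (abs_nonneg _)) (ht i) 2
      refine le_trans (Finset.sum_le_sum (fun i _ => h2 i)) ?_
      rw [Finset.sum_const, Finset.card_univ, Fintype.card_fin, nsmul_eq_mul, mul_pow,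
        Real.sq_sqrt (Nat.cast_nonneg d)]
    exact le_of_sq_le_sq h1 (by positivity)
  obtain ⟨T₁, hT₁⟩ := eventually_atTop.1 hAu
  set T := max T₁ T₀ with hTdef
  have hT0 : 0 ≤ T := le_trans hT₀ (le_max_right _ _)
  have hX0 : 0 ≤ (B + Real.sqrt d * (B + ε')) := by positivity
  have hmain : ∀ t, T ≤ t → ∀ e : EuclideanSpace ℝ (Fin d), |⟪e, v t⟫| ≤
      ‖e‖ * (B + Real.sqrt d * (B + ε')) / c + |⟪e, v T⟫| * Real.exp (-(c * (t - T))) := by
    intro t ht e
    refine abs_bound (y := fun t => ⟪e, v t⟫)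
      (φ := fun t => ⟪e, f t - Matrix.toEuclideanLin A (u t)⟫) hc (by positivity) ht
      (ac_sub hT0 ht le_rfl (ac_inner (hs.absCont t (by linarith)) e)) ?_ ?_
    · filter_upwards [hs.eqn] with s hs' hm
      have h0 : 0 < s := lt_of_le_of_lt hT0 hm.1
      refine (hasDerivAt_inner_const (hs' h0) e).congr_deriv ?_
      rw [inner_sub_right, inner_sub_right, real_inner_smul_right, inner_sub_right]
      ring
    · filter_upwards [hf] with s hs' hm
      refine le_trans (abs_real_inner_le_norm _ _) ?_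
      refine mul_le_mul_of_nonneg_left ?_ (norm_nonneg _)
      refine le_trans (norm_sub_le _ _) ?_
      exact add_le_add (hs' (lt_of_le_of_lt (le_max_right _ _) hm.1))
        (hT₁ s (le_trans (le_max_left _ _) hm.1.le))
  filter_upwards [eventually_ge_atTop T, eventually_exp (K := ‖v T‖) (a := T) hc
    (show 0 < ε / 2 by positivity)] with t ht he
  have h1 := hmain t ht (v t)
  rw [real_inner_self_eq_norm_sq, abs_of_nonneg (sq_nonneg _)] at h1
  have h2 : |⟪v t, v T⟫| * Real.exp (-(c * (t - T))) ≤ ‖v t‖ * (ε / 2) := by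
    have h3 := mul_le_mul_of_nonneg_right (abs_real_inner_le_norm (v t) (v T))
      (Real.exp_pos (-(c * (t - T)))).le
    refine le_trans h3 ?_
    rw [mul_assoc]
    exact mul_le_mul_of_nonneg_left he (norm_nonneg _)
  have h3 : ‖v t‖ ^ 2 ≤ ‖v t‖ * ((B + Real.sqrt d * (B + ε')) / c + ε / 2) := by
    have : ‖v t‖ * (B + Real.sqrt d * (B + ε')) / c = ‖v t‖ * ((B + Real.sqrt d * (B + ε')) / c) := by
      ring
    rw [this] at h1
    linarith
  have h4 : ‖v t‖ ≤ (B + Real.sqrt d * (B + ε')) / c + ε / 2 := by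
    rcases (norm_nonneg (v t)).eq_or_lt with h | h
    · rw [← h]
      positivity
    · rw [sq] at h3
      exact le_of_mul_le_mul_left h3 h
  have h5 : Real.sqrt d * ε' / c ≤ ε / 2 := by
    rw [hε', div_le_iff₀ hc]
    have h6 : Real.sqrt d * (c * ε / (2 * (Real.sqrt d + 1))) =
        (Real.sqrt d / (Real.sqrt d + 1)) * (ε / 2 * c) := by
      field_simp
    rw [h6]
    have h7 : Real.sqrt d / (Real.sqrt d + 1) ≤ 1 := by
      rw [div_le_one (by positivity)]
      linarith
    have h8 : 0 ≤ ε / 2 * c := by positivity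
    nlinarith
  have h9 : (B + Real.sqrt d * (B + ε')) / c = (1 + Real.sqrt d) / c * B + Real.sqrt d * ε' / c := by
    ring
  linarith

end Pool.Agent.X188.Osc
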